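import Pool.Agent.Q130.CM.Lim
import Pool.Agent.Q130.CX.Bd

/-!
# Cone monotone homeomorphisms of manifolds with boundary
-/

set_option autoImplicit false

open Set Filter Topology Metric Function
open scoped Manifold ContDiff

noncomputable section

namespace Pool.Agent.Q130.CM

open Pool.Agent.Y522 Pool.Agent.Y833.SH Pool.Agent.Y674.SH Pool.Agent.Y66.CM Pool.Agent.Q130.CX

/-- from the interiors to manifolds with boundary -/
theorem coreGen (m : ℕ) (M N X Y : Type) [TopologicalSpace M] [TopologicalSpace N]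
    [TopologicalSpace X] [TopologicalSpace Y]
    [ChartedSpace (EuclideanHalfSpace (m + 1)) M] [ChartedSpace (EuclideanHalfSpace (m + 1)) N]
    [ChartedSpace (E (m + 1)) X] [ChartedSpace (E (m + 1)) Y]
    [IsManifold (𝓡∂ (m + 1)) ∞ M] [IsManifold (𝓡∂ (m + 1)) ∞ N] [IsManifold (𝓡 (m + 1)) ∞ X]
    [IsManifold (𝓡 (m + 1)) ∞ Y] [T2Space M] [NormalSpace M]
    (ι : X → M) (hι : Injective ι) (hιr : range ι = (𝓡∂ (m + 1)).interior M)
    (hιd : ∀ x, IsLocalDiffeomorphAt (𝓡 (m + 1)) (𝓡∂ (m + 1)) ∞ ι x)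
    (κ : Y → N) (hκ : Injective κ) (hκr : range κ = (𝓡∂ (m + 1)).interior N)
    (hκd : ∀ y, IsLocalDiffeomorphAt (𝓡 (m + 1)) (𝓡∂ (m + 1)) ∞ κ y)
    (h : M ≃ₜ N)
    (hb : ∀ x ∉ (𝓡∂ (m + 1)).interior M,
      IsLocalDiffeomorphAt (𝓡∂ (m + 1)) (𝓡∂ (m + 1)) ∞ h x)
    (hE : ∀ f : X ≃ₜ Y, (∀ x, κ (f x) = h (ι x)) → ∀ V : Set X, IsOpen V →
      (∀ x, ¬ LD (m + 1) f x → x ∈ V) → ∀ O : Set (X × Y), IsOpen O → (∀ x, (x, f x) ∈ O) →
      ∃ f' : X → Y, (∀ x, (x, f' x) ∈ O) ∧ Bijective f' ∧ (∀ x, LD (m + 1) f' x) ∧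
        ∀ x, x ∉ V → f' x = f x)
    (O : Set (M × N)) (hO : IsOpen O) (hhO : ∀ x, (x, h x) ∈ O) :
    ∃ Φ : Diffeomorph (𝓡∂ (m + 1)) (𝓡∂ (m + 1)) M N ∞, (∀ x, (x, Φ x) ∈ O) ∧
      ∀ x ∉ (𝓡∂ (m + 1)).interior M, ∀ᶠ y in 𝓝 x, Φ y = h y := by
  classical
  have hint : ∀ x, x ∈ (𝓡∂ (m + 1)).interior M ↔ h x ∈ (𝓡∂ (m + 1)).interior N :=
    int_homeo (𝓡∂ (m + 1)) h
  have hιc : Continuous ι := continuous_iff_continuousAt.2 fun x => (hιd x).contMDiffAt.continuousAt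
  have hκc : Continuous κ := continuous_iff_continuousAt.2 fun x => (hκd x).contMDiffAt.continuousAt
  have hιo : IsOpenMap ι := IsLocalDiffeomorph.isOpenMap (I := 𝓡 (m + 1)) (J := 𝓡∂ (m + 1))
    (n := ∞) hιd
  have hκo : IsOpenMap κ := IsLocalDiffeomorph.isOpenMap (I := 𝓡 (m + 1)) (J := 𝓡∂ (m + 1))
    (n := ∞) hκd
  have hιe : IsOpenEmbedding ι := IsOpenEmbedding.of_continuous_injective_isOpenMap hιc hι hιo
  have hκe : IsOpenEmbedding κ := IsOpenEmbedding.of_continuous_injective_isOpenMap hκc hκ hκo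
  obtain ⟨f, hf⟩ : ∃ f : X ≃ₜ Y, ∀ x, κ (f x) = h (ι x) := by
    have hsub : ∀ x, x ∈ range ι ↔ h x ∈ range κ := by
      intro x
      rw [hιr, hκr]
      exact hint x
    refine ⟨(hιe.isEmbedding.toHomeomorph.trans (h.subtype hsub)).trans
      hκe.isEmbedding.toHomeomorph.symm, fun x => ?_⟩
    have h1 := hκe.isEmbedding.toHomeomorph.apply_symm_apply
      ((hιe.isEmbedding.toHomeomorph.trans (h.subtype hsub)) x)
    exact congrArg Subtype.val h1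
  have hmem : ∀ x, ι x ∈ (𝓡∂ (m + 1)).interior M := fun x => hιr ▸ mem_range_self x
  have hmemN : ∀ y, κ y ∈ (𝓡∂ (m + 1)).interior N := fun x => hκr ▸ mem_range_self x
  -- smoothness and local diffeomorphisms
  have hfl : ∀ x, ∃ p : N → Y, IsLocalDiffeomorphAt (𝓡∂ (m + 1)) (𝓡 (m + 1)) ∞ p (h (ι x)) ∧
      ((f : X → Y) =ᶠ[𝓝 x] fun x => p (h (ι x))) := by
    intro x
    obtain ⟨p, hp1, hp2, hp3, hp4⟩ := ld_inverse (hκd (f x))
    rw [hf] at hp1
    refine ⟨p, hp1, ?_⟩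
    filter_upwards [f.continuous.continuousAt.eventually hp3] with y hy
    rw [← hf, hy]
  have hfld : ∀ x, IsLocalDiffeomorphAt (𝓡∂ (m + 1)) (𝓡∂ (m + 1)) ∞ h (ι x) →
      LD (m + 1) f x := by
    intro x hx
    obtain ⟨p, hp1, hp2⟩ := hfl x
    have h1 := IsLocalDiffeomorphAt.comp (𝓡∂ (m + 1)) N (hιd x) hx
    have h2 := IsLocalDiffeomorphAt.comp (𝓡 (m + 1)) Y h1 (g := p) hp1
    exact LD.congr h2 hp2
  -- separation
  have hBc : IsClosed {x : M | ¬ IsLocalDiffeomorphAt (𝓡∂ (m + 1)) (𝓡∂ (m + 1)) ∞ h x} := by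
    rw [← isOpen_compl_iff, isOpen_iff_mem_nhds]
    intro x hx
    have hx' : IsLocalDiffeomorphAt (𝓡∂ (m + 1)) (𝓡∂ (m + 1)) ∞ h x := by
      by_contra h'
      exact hx h'
    filter_upwards [ld_eventually hx'] with y hy h' using h' hy
  have hbd : IsClosed ((𝓡∂ (m + 1)).interior M)ᶜ := (isOpen_int (𝓡∂ (m + 1))).isClosed_compl
  obtain ⟨W, W', hW, hW', hBW, hbW, hWW⟩ := normal_separation hBc hbd (by
    rw [Set.disjoint_left]
    intro x hx hx'
    exact hx (hb x hx'))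
  have hWW' : ∀ x ∈ W', x ∉ W := fun x hx hx' => Set.disjoint_left.1 hWW hx' hx
  obtain ⟨f', h1, h2, h3, h4⟩ := hE f hf (ι ⁻¹' W) (hW.preimage hιc)
    (fun x hx => hBW fun h' => hx (hfld x h'))
    {p | (ι p.1, κ p.2) ∈ O} (hO.preimage ((hιc.comp continuous_fst).prodMk
      (hκc.comp continuous_snd))) (fun x => by
        show (ι x, κ (f x)) ∈ O
        rw [hf]
        exact hhO _)
  obtain ⟨G, hG1, hG2⟩ : ∃ G : M → N, (∀ x, G (ι x) = κ (f' x)) ∧ ∀ y, y ∉ range ι → G y = h y := by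
    refine ⟨fun y => if hy : ∃ x, ι x = y then κ (f' hy.choose) else h y, ?_, ?_⟩
    · intro x
      have hx : ∃ x', ι x' = ι x := ⟨x, rfl⟩
      simp only [dif_pos hx]
      rw [hι hx.choose_spec]
    · intro y hy
      have : ¬ ∃ x, ι x = y := hy
      simp only [dif_neg this]
  have hbn : ∀ y, y ∉ range ι → h y ∉ (𝓡∂ (m + 1)).interior N := by
    intro y hy h1
    rw [← hint, ← hιr] at h1
    exact hy h1
  have hGi : Injective G := by
    intro a b hab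
    by_cases ha : a ∈ range ι
    · by_cases hb' : b ∈ range ι
      · obtain ⟨x, rfl⟩ := ha
        obtain ⟨y, rfl⟩ := hb'
        rw [hG1, hG1] at hab
        rw [h2.1 (hκ hab)]
      · exfalso
        obtain ⟨x, rfl⟩ := ha
        rw [hG1, hG2 b hb'] at hab
        exact hbn b hb' (hab ▸ hmemN _)
    · by_cases hb' : b ∈ range ι
      · exfalso
        obtain ⟨x, rfl⟩ := hb'
        rw [hG1, hG2 a ha] at hab
        exact hbn a ha (hab ▸ hmemN _)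
      · rw [hG2 a ha, hG2 b hb'] at hab
        exact h.injective hab
  have hGs : Surjective G := by
    intro y
    by_cases hy : y ∈ (𝓡∂ (m + 1)).interior N
    · rw [← hκr] at hy
      obtain ⟨y', rfl⟩ := hy
      obtain ⟨x, hx⟩ := h2.2 y'
      exact ⟨ι x, by rw [hG1, hx]⟩
    · refine ⟨h.symm y, ?_⟩
      rw [hG2, h.apply_symm_apply]
      intro h1
      rw [hιr, hint, h.apply_symm_apply] at h1
      exact hy h1
  have hGW : ∀ y ∈ W', G y = h y := by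
    intro y hy
    by_cases g1 : y ∈ range ι
    · obtain ⟨x, rfl⟩ := g1
      rw [hG1, h4 x (hWW' _ hy), hf]
    · exact hG2 y g1
  have hloc : IsLocalDiffeomorph (𝓡∂ (m + 1)) (𝓡∂ (m + 1)) ∞ G := by
    intro y
    by_cases hy : y ∈ range ι
    · obtain ⟨x, rfl⟩ := hy
      obtain ⟨p, hp1, hp2, hp3, hp4⟩ := ld_inverse (hιd x)
      have g1 : LD (m + 1) f' (p (ι x)) := by
        rw [hp2]
        exact h3 x
      have g2 := IsLocalDiffeomorphAt.comp (𝓡 (m + 1)) Y hp1 g1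
      have g3 := IsLocalDiffeomorphAt.comp (𝓡∂ (m + 1)) N g2 (hκd _)
      refine ld_congr g3 ?_
      filter_upwards [hp4] with z hz
      show G z = κ (f' (p z))
      rw [← hG1, hz]
    · have hyi : y ∉ (𝓡∂ (m + 1)).interior M := by rwa [← hιr]
      refine ld_congr (hb y hyi) ?_
      filter_upwards [hW'.mem_nhds (hbW hyi)] with z hz using hGW z hz
  obtain ⟨Φ, hΦ⟩ : ∃ Φ : Diffeomorph (𝓡∂ (m + 1)) (𝓡∂ (m + 1)) M N ∞, ∀ x, Φ x = G x :=
    ⟨hloc.diffeomorphOfBijective ⟨hGi, hGs⟩, fun x => rfl⟩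
  refine ⟨Φ, fun x => ?_, fun x hx => ?_⟩
  · rw [hΦ]
    by_cases g1 : x ∈ range ι
    · obtain ⟨x, rfl⟩ := g1
      rw [hG1]
      exact h1 x
    · rw [hG2 x g1]
      exact hhO x
  · filter_upwards [hW'.mem_nhds (hbW hx)] with z hz
    rw [hΦ]
    exact hGW z hz

/-- cone monotone at `x`, for a map to a manifold with boundary -/
def CMonB (n : ℕ) [NeZero n] {M N : Type} [TopologicalSpace M] [TopologicalSpace N]
    [ChartedSpace (EuclideanHalfSpace n) M] [ChartedSpace (EuclideanHalfSpace n) N]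
    (f : M → N) (x : M) : Prop :=
  ∃ (A : E n → M) (B : N → E n), A 0 = x ∧ IsLocalDiffeomorphAt (𝓡 n) (𝓡∂ n) ∞ A 0 ∧
    IsLocalDiffeomorphAt (𝓡∂ n) (𝓡 n) ∞ B (f x) ∧
    ∀ v : E n, v ≠ 0 → ∃ (r : ℝ) (ℓ : E n →L[ℝ] ℝ), 0 < r ∧
      ∀ p q : E n, ‖p‖ ≤ r → ‖q‖ ≤ r → ∀ t : ℝ, 0 < t → ‖q - p - t • v‖ ≤ r * t →
        r * ‖B (f (A q)) - B (f (A p))‖ < ℓ (B (f (A q)) - B (f (A p)))

theorem CMon_of_CMonB (m : ℕ) {M N X Y : Type} [TopologicalSpace M] [TopologicalSpace N]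
    [TopologicalSpace X] [TopologicalSpace Y]
    [ChartedSpace (EuclideanHalfSpace (m + 1)) M] [ChartedSpace (EuclideanHalfSpace (m + 1)) N]
    [ChartedSpace (E (m + 1)) X] [ChartedSpace (E (m + 1)) Y]
    (ι : X → M) (hι : Injective ι)
    (hιd : ∀ x, IsLocalDiffeomorphAt (𝓡 (m + 1)) (𝓡∂ (m + 1)) ∞ ι x)
    (κ : Y → N)
    (hκd : ∀ y, IsLocalDiffeomorphAt (𝓡 (m + 1)) (𝓡∂ (m + 1)) ∞ κ y)
    (h : M → N) (f : X → Y) (hf : ∀ x, κ (f x) = h (ι x)) (x : X)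
    (hx : CMonB (m + 1) h (ι x)) : CMon (m + 1) f x := by
  obtain ⟨A, B, hA0, hA, hB, hmon⟩ := hx
  refine ⟨fun y => B (κ y), ?_, ?_⟩
  · have h1 := IsLocalDiffeomorphAt.comp (𝓡 (m + 1)) (E (m + 1)) (hκd (f x)) (g := B)
      (by rw [hf]; exact hB)
    exact h1
  · obtain ⟨p, hp1, hp2, hp3, hp4⟩ := ld_inverse (hιd x)
    have h1 := IsLocalDiffeomorphAt.comp (𝓡 (m + 1)) X hA (g := p) (by rw [hA0]; exact hp1)
    refine ⟨fun z => p (A z), ?_, h1, fun v hv => ?_⟩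
    · show p (A 0) = x
      rw [hA0, hp2]
    · obtain ⟨r, ℓ, hr, hℓ⟩ := hmon v hv
      have h2 : ∀ᶠ z in 𝓝 (0 : E (m + 1)), ι (p (A z)) = A z := by
        have h3 := hA.contMDiffAt.continuousAt
        rw [ContinuousAt, hA0] at h3
        exact h3.eventually hp4
      obtain ⟨r1, hr1, h3⟩ := Metric.eventually_nhds_iff_ball.1 h2
      have h4 : ∀ z : E (m + 1), ‖z‖ ≤ min r (r1 / 2) →
          B (κ (f (p (A z)))) = B (h (A z)) := by
        intro z hz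
        rw [hf, h3 z]
        rw [mem_ball_zero_iff]
        have := min_le_right r (r1 / 2)
        linarith
      refine ⟨min r (r1 / 2), ℓ, lt_min hr (by linarith), fun a b ha hb t ht hab => ?_⟩
      show min r (r1 / 2) * ‖B (κ (f (p (A b)))) - B (κ (f (p (A a))))‖ <
        ℓ (B (κ (f (p (A b)))) - B (κ (f (p (A a)))))
      rw [h4 a ha, h4 b hb]
      refine lt_of_le_of_lt (mul_le_mul_of_nonneg_right (min_le_left _ _) (norm_nonneg _)) ?_
      exact hℓ a b (ha.trans (min_le_left _ _)) (hb.trans (min_le_left _ _)) t ht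
        (hab.trans (mul_le_mul_of_nonneg_right (min_le_left _ _) ht.le))

/-- **Cone monotone homeomorphisms of manifolds with boundary.** -/
theorem mainC (m : ℕ) (M N : Type) [TopologicalSpace M] [TopologicalSpace N]
    [ChartedSpace (EuclideanHalfSpace (m + 1)) M] [ChartedSpace (EuclideanHalfSpace (m + 1)) N]
    [IsManifold (𝓡∂ (m + 1)) ∞ M] [IsManifold (𝓡∂ (m + 1)) ∞ N] [T2Space M] [SigmaCompactSpace M]
    (h : M ≃ₜ N)
    (hb : ∀ x ∉ (𝓡∂ (m + 1)).interior M,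
      IsLocalDiffeomorphAt (𝓡∂ (m + 1)) (𝓡∂ (m + 1)) ∞ h x)
    (hc : ∀ x ∈ (𝓡∂ (m + 1)).interior M,
      IsLocalDiffeomorphAt (𝓡∂ (m + 1)) (𝓡∂ (m + 1)) ∞ h x ∨ CMonB (m + 1) h x)
    (O : Set (M × N)) (hO : IsOpen O) (hhO : ∀ x, (x, h x) ∈ O) :
    ∃ Φ : Diffeomorph (𝓡∂ (m + 1)) (𝓡∂ (m + 1)) M N ∞, (∀ x, (x, Φ x) ∈ O) ∧
      ∀ x ∉ (𝓡∂ (m + 1)).interior M, ∀ᶠ y in 𝓝 x, Φ y = h y := by
  have : LocallyCompactSpace M := Manifold.locallyCompact_of_finiteDimensional (𝓡∂ (m + 1))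
  have : SecondCountableTopology (EuclideanHalfSpace (m + 1)) :=
    inferInstanceAs (SecondCountableTopology {x : EuclideanSpace ℝ (Fin (m + 1)) // 0 ≤ x 0})
  have : SecondCountableTopology M :=
    ChartedSpace.secondCountable_of_sigmaCompact (EuclideanHalfSpace (m + 1)) M
  have hio : IsOpen ((𝓡∂ (m + 1)).interior M) := isOpen_int (𝓡∂ (m + 1))
  have : LocallyCompactSpace ((𝓡∂ (m + 1)).interior M) := hio.locallyCompactSpace
  have : SigmaCompactSpace ((𝓡∂ (m + 1)).interior M) := inferInstance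
  have : NormalSpace M := inferInstance
  have : T2Space N := h.t2Space
  let := csI (M := M) (𝓡∂ (m + 1))
  have := mfI (M := M) (𝓡∂ (m + 1))
  let := csI (M := N) (𝓡∂ (m + 1))
  have := mfI (M := N) (𝓡∂ (m + 1))
  refine coreGen m M N ((𝓡∂ (m + 1)).interior M) ((𝓡∂ (m + 1)).interior N)
    Subtype.val Subtype.val_injective Subtype.range_val (fun x => ldiff_val (𝓡∂ (m + 1)) x)
    Subtype.val Subtype.val_injective Subtype.range_val (fun x => ldiff_val (𝓡∂ (m + 1)) x)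
    h hb ?_ O hO hhO
  intro f hf V hV hbad O' hO' hfO'
  refine cmInf (m + 1) _ _ f V hV (fun x hx => ⟨hbad x hx, ?_⟩) O' hO' hfO'
  rcases hc x.1 x.2 with h1 | h1
  · exfalso
    apply hx
    obtain ⟨p, hp1, hp2, hp3, hp4⟩ := ld_inverse (ldiff_val (𝓡∂ (m + 1)) (f x))
    rw [hf] at hp1
    have h2 := IsLocalDiffeomorphAt.comp (𝓡∂ (m + 1)) N (ldiff_val (𝓡∂ (m + 1)) x) h1
    have h3 := IsLocalDiffeomorphAt.comp (𝓡 (m + 1)) _ h2 (g := p) hp1
    refine LD.congr h3 ?_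
    filter_upwards [f.continuous.continuousAt.eventually hp3] with y hy
    show f y = p (h y)
    rw [← hf, hy]
  · exact CMon_of_CMonB m Subtype.val Subtype.val_injective (fun x => ldiff_val (𝓡∂ (m + 1)) x)
      Subtype.val (fun x => ldiff_val (𝓡∂ (m + 1)) x) h f hf x h1

end Pool.Agent.Q130.CM
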