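import Pool.Agent.Q130.CM.Bd

/-!
# Homeomorphisms of manifolds with boundary which can be made diffeomorphisms of the interiors
-/

set_option autoImplicit false

open Set Filter Topology Metric Function
open scoped Manifold ContDiff

noncomputable section

namespace Pool.Agent.Q130.CM

open Pool.Agent.Y522 Pool.Agent.Y833.SH Pool.Agent.Y674.SH Pool.Agent.Y66.CM Pool.Agent.Q130.CX

/-- smoothness of the map of the interiors -/
theorem contMDiff_lift (m : ℕ) {M N X Y : Type} [TopologicalSpace M] [TopologicalSpace N]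
    [TopologicalSpace X] [TopologicalSpace Y]
    [ChartedSpace (EuclideanHalfSpace (m + 1)) M] [ChartedSpace (EuclideanHalfSpace (m + 1)) N]
    [ChartedSpace (E (m + 1)) X] [ChartedSpace (E (m + 1)) Y]
    (ι : X → M) (hιd : ∀ x, IsLocalDiffeomorphAt (𝓡 (m + 1)) (𝓡∂ (m + 1)) ∞ ι x)
    (h : M → N) (f : X → Y)
    (hfl : ∀ x, ∃ p : N → Y, IsLocalDiffeomorphAt (𝓡∂ (m + 1)) (𝓡 (m + 1)) ∞ p (h (ι x)) ∧
      (f =ᶠ[𝓝 x] fun x => p (h (ι x))))
    (hs : ∀ x, ContMDiffAt (𝓡∂ (m + 1)) (𝓡∂ (m + 1)) ∞ h (ι x)) :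
    ContMDiff (𝓡 (m + 1)) (𝓡 (m + 1)) ∞ f := by
  intro x
  obtain ⟨p, hp1, hp2⟩ := hfl x
  refine ContMDiffAt.congr_of_eventuallyEq ?_ hp2
  exact hp1.contMDiffAt.comp x ((hs x).comp x (hιd x).contMDiffAt)

/-- the rank of the map of the interiors -/
theorem rank_lift (m : ℕ) {M N X Y : Type} [TopologicalSpace M] [TopologicalSpace N]
    [TopologicalSpace X] [TopologicalSpace Y]
    [ChartedSpace (EuclideanHalfSpace (m + 1)) M] [ChartedSpace (EuclideanHalfSpace (m + 1)) N]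
    [ChartedSpace (E (m + 1)) X] [ChartedSpace (E (m + 1)) Y]
    [IsManifold (𝓡∂ (m + 1)) ∞ M] [IsManifold (𝓡∂ (m + 1)) ∞ N] [IsManifold (𝓡 (m + 1)) ∞ X]
    [IsManifold (𝓡 (m + 1)) ∞ Y]
    (ι : X → M) (hιd : ∀ x, IsLocalDiffeomorphAt (𝓡 (m + 1)) (𝓡∂ (m + 1)) ∞ ι x)
    (κ : Y → N) (hκd : ∀ y, IsLocalDiffeomorphAt (𝓡 (m + 1)) (𝓡∂ (m + 1)) ∞ κ y)
    (h : M → N) (f : X → Y) (hf : ∀ x, κ (f x) = h (ι x)) (x : X)
    (hs : ContMDiffAt (𝓡∂ (m + 1)) (𝓡∂ (m + 1)) ∞ h (ι x))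
    (hfs : ContMDiff (𝓡 (m + 1)) (𝓡 (m + 1)) ∞ f)
    (hr : m ≤ Module.finrank ℝ
      (LinearMap.range (mfderiv (𝓡∂ (m + 1)) (𝓡∂ (m + 1)) h (ι x)).toLinearMap)) :
    m ≤ Module.finrank ℝ
      (LinearMap.range (mfderiv (𝓡 (m + 1)) (𝓡 (m + 1)) f x).toLinearMap) := by
  have e1 : mfderiv (𝓡 (m + 1)) (𝓡∂ (m + 1)) (κ ∘ f) x =
      (mfderiv (𝓡 (m + 1)) (𝓡∂ (m + 1)) κ (f x)).comp
        (mfderiv (𝓡 (m + 1)) (𝓡 (m + 1)) f x) :=
    mfderiv_comp x ((hκd _).mdifferentiableAt (by simp)) (hfs.mdifferentiableAt (by simp))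
  have e2 : mfderiv (𝓡 (m + 1)) (𝓡∂ (m + 1)) (h ∘ ι) x =
      (mfderiv (𝓡∂ (m + 1)) (𝓡∂ (m + 1)) h (ι x)).comp
        (mfderiv (𝓡 (m + 1)) (𝓡∂ (m + 1)) ι x) :=
    mfderiv_comp x (hs.mdifferentiableAt (by simp)) ((hιd x).mdifferentiableAt (by simp))
  have e3 : κ ∘ f = h ∘ ι := funext fun x => hf x
  have hsur : Surjective (mfderiv (𝓡 (m + 1)) (𝓡∂ (m + 1)) ι x) :=
    ((hιd x).mfderivToContinuousLinearEquiv (by simp)).surjective
  let A : E (m + 1) →L[ℝ] E (m + 1) := mfderiv (𝓡 (m + 1)) (𝓡∂ (m + 1)) κ (f x)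
  let B : E (m + 1) →L[ℝ] E (m + 1) := mfderiv (𝓡 (m + 1)) (𝓡 (m + 1)) f x
  let C : E (m + 1) →L[ℝ] E (m + 1) := mfderiv (𝓡∂ (m + 1)) (𝓡∂ (m + 1)) h (ι x)
  let D : E (m + 1) →L[ℝ] E (m + 1) := mfderiv (𝓡 (m + 1)) (𝓡∂ (m + 1)) ι x
  have e4 : A.comp B = C.comp D := by
    show (mfderiv (𝓡 (m + 1)) (𝓡∂ (m + 1)) κ (f x)).comp
        (mfderiv (𝓡 (m + 1)) (𝓡 (m + 1)) f x) =
      (mfderiv (𝓡∂ (m + 1)) (𝓡∂ (m + 1)) h (ι x)).comp
        (mfderiv (𝓡 (m + 1)) (𝓡∂ (m + 1)) ι x)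
    rw [← e1, ← e2, e3]
  have hC : m ≤ Module.finrank ℝ (LinearMap.range C.toLinearMap) := hr
  have hD : Surjective D := hsur
  show m ≤ Module.finrank ℝ (LinearMap.range B.toLinearMap)
  have e5 : LinearMap.range C.toLinearMap ≤
      Submodule.map A.toLinearMap (LinearMap.range B.toLinearMap) := by
    rintro _ ⟨v, rfl⟩
    obtain ⟨u, hu⟩ := hD v
    refine ⟨B u, ⟨u, rfl⟩, ?_⟩
    have := congrArg (fun T => T u) e4
    show A (B u) = C v
    rw [← hu]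
    exact this
  exact hC.trans ((Submodule.finrank_mono e5).trans (Submodule.finrank_map_le _ _))

/-- from the interiors to manifolds with boundary, without conditions at the boundary -/
theorem coreInt (m : ℕ) (M N X Y : Type) [TopologicalSpace M] [TopologicalSpace N]
    [TopologicalSpace X] [TopologicalSpace Y]
    [ChartedSpace (EuclideanHalfSpace (m + 1)) M] [ChartedSpace (EuclideanHalfSpace (m + 1)) N]
    [ChartedSpace (E (m + 1)) X] [ChartedSpace (E (m + 1)) Y]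
    [IsManifold (𝓡∂ (m + 1)) ∞ M] [IsManifold (𝓡∂ (m + 1)) ∞ N] [IsManifold (𝓡 (m + 1)) ∞ X]
    [IsManifold (𝓡 (m + 1)) ∞ Y] [CompactSpace M]
    (δ : M → ℝ) (hδ : Continuous δ) (hδ0 : ∀ x ∉ (𝓡∂ (m + 1)).interior M, δ x = 0)
    (hδp : ∀ x ∈ (𝓡∂ (m + 1)).interior M, 0 < δ x)
    (d : N → N → ℝ) (hd : Continuous fun p : N × N => d p.1 p.2) (hd0 : ∀ y, d y y = 0)
    (hdn : ∀ (y : N) (s : Set N), s ∈ 𝓝 y → ∃ e : ℝ, 0 < e ∧ ∀ a b, d a y < e → d b a < e → b ∈ s)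
    (hds : ∀ y : N, ∀ e : ℝ, 0 < e → ∀ᶠ a in 𝓝 y, d a y < e) [T2Space N]
    (ι : X → M) (hι : Injective ι) (hιr : range ι = (𝓡∂ (m + 1)).interior M)
    (hιd : ∀ x, IsLocalDiffeomorphAt (𝓡 (m + 1)) (𝓡∂ (m + 1)) ∞ ι x)
    (κ : Y → N) (hκ : Injective κ) (hκr : range κ = (𝓡∂ (m + 1)).interior N)
    (hκd : ∀ y, IsLocalDiffeomorphAt (𝓡 (m + 1)) (𝓡∂ (m + 1)) ∞ κ y)
    (h : M ≃ₜ N)
    (hE : ∀ f : X ≃ₜ Y, (∀ x, κ (f x) = h (ι x)) →
      ∀ O : Set (X × Y), IsOpen O → (∀ x, (x, f x) ∈ O) →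
      ∃ f' : X → Y, (∀ x, (x, f' x) ∈ O) ∧ Bijective f' ∧ ∀ x, LD (m + 1) f' x)
    (O : Set (M × N)) (hO : IsOpen O) (hhO : ∀ x, (x, h x) ∈ O) :
    ∃ Φ : M ≃ₜ N, (∀ x, (x, Φ x) ∈ O) ∧ (∀ x ∉ (𝓡∂ (m + 1)).interior M, Φ x = h x) ∧
      ∀ x ∈ (𝓡∂ (m + 1)).interior M,
        IsLocalDiffeomorphAt (𝓡∂ (m + 1)) (𝓡∂ (m + 1)) ∞ Φ x := by
  classical
  have hint : ∀ x, x ∈ (𝓡∂ (m + 1)).interior M ↔ h x ∈ (𝓡∂ (m + 1)).interior N :=
    int_homeo (𝓡∂ (m + 1)) h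
  have hιc : Continuous ι := continuous_iff_continuousAt.2 fun x => (hιd x).contMDiffAt.continuousAt
  have hκc : Continuous κ := continuous_iff_continuousAt.2 fun x => (hκd x).contMDiffAt.continuousAt
  have hιo : IsOpenMap ι := IsLocalDiffeomorph.isOpenMap (I := 𝓡 (m + 1)) (J := 𝓡∂ (m + 1))
    (n := ∞) hιd
  have hκo : IsOpenMap κ := IsLocalDiffeomorph.isOpenMap (I := 𝓡 (m + 1)) (J := 𝓡∂ (m + 1))
    (n := ∞) hκd
  have hιe : IsOpenEmbedding ι := IsOpenEmbedding.of_continuous_injective_isOpenMap hιc hι hιo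
  have hκe : IsOpenEmbedding κ := IsOpenEmbedding.of_continuous_injective_isOpenMap hκc hκ hκo
  obtain ⟨f, hf⟩ : ∃ f : X ≃ₜ Y, ∀ x, κ (f x) = h (ι x) := by
    have hsub : ∀ x, x ∈ range ι ↔ h x ∈ range κ := by
      intro x
      rw [hιr, hκr]
      exact hint x
    refine ⟨(hιe.isEmbedding.toHomeomorph.trans (h.subtype hsub)).trans
      hκe.isEmbedding.toHomeomorph.symm, fun x => ?_⟩
    have h1 := hκe.isEmbedding.toHomeomorph.apply_symm_apply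
      ((hιe.isEmbedding.toHomeomorph.trans (h.subtype hsub)) x)
    exact congrArg Subtype.val h1
  have hmem : ∀ x, ι x ∈ (𝓡∂ (m + 1)).interior M := fun x => hιr ▸ mem_range_self x
  have hmemN : ∀ y, κ y ∈ (𝓡∂ (m + 1)).interior N := fun x => hκr ▸ mem_range_self x
  obtain ⟨f', h1, h2, h3⟩ := hE f hf
    {p | (ι p.1, κ p.2) ∈ O ∧ d (κ p.2) (h (ι p.1)) < δ (ι p.1)}
    (by
      refine IsOpen.inter (hO.preimage ((hιc.comp continuous_fst).prodMk
        (hκc.comp continuous_snd))) ?_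
      exact isOpen_lt (hd.comp ((hκc.comp continuous_snd).prodMk
        (h.continuous.comp (hιc.comp continuous_fst)))) (hδ.comp (hιc.comp continuous_fst)))
    (fun x => by
      refine ⟨?_, ?_⟩
      · show (ι x, κ (f x)) ∈ O
        rw [hf]
        exact hhO _
      · show d (κ (f x)) (h (ι x)) < δ (ι x)
        rw [hf, hd0]
        exact hδp _ (hmem x))
  obtain ⟨G, hG1, hG2⟩ : ∃ G : M → N, (∀ x, G (ι x) = κ (f' x)) ∧ ∀ y, y ∉ range ι → G y = h y := by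
    refine ⟨fun y => if hy : ∃ x, ι x = y then κ (f' hy.choose) else h y, ?_, ?_⟩
    · intro x
      have hx : ∃ x', ι x' = ι x := ⟨x, rfl⟩
      simp only [dif_pos hx]
      rw [hι hx.choose_spec]
    · intro y hy
      have : ¬ ∃ x, ι x = y := hy
      simp only [dif_neg this]
  have hbn : ∀ y, y ∉ range ι → h y ∉ (𝓡∂ (m + 1)).interior N := by
    intro y hy h1
    rw [← hint, ← hιr] at h1
    exact hy h1
  have hGi : Injective G := by
    intro a b hab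
    by_cases ha : a ∈ range ι
    · by_cases hb' : b ∈ range ι
      · obtain ⟨x, rfl⟩ := ha
        obtain ⟨y, rfl⟩ := hb'
        rw [hG1, hG1] at hab
        rw [h2.1 (hκ hab)]
      · exfalso
        obtain ⟨x, rfl⟩ := ha
        rw [hG1, hG2 b hb'] at hab
        exact hbn b hb' (hab ▸ hmemN _)
    · by_cases hb' : b ∈ range ι
      · exfalso
        obtain ⟨x, rfl⟩ := hb'
        rw [hG1, hG2 a ha] at hab
        exact hbn a ha (hab ▸ hmemN _)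
      · rw [hG2 a ha, hG2 b hb'] at hab
        exact h.injective hab
  have hGs : Surjective G := by
    intro y
    by_cases hy : y ∈ (𝓡∂ (m + 1)).interior N
    · rw [← hκr] at hy
      obtain ⟨y', rfl⟩ := hy
      obtain ⟨x, hx⟩ := h2.2 y'
      exact ⟨ι x, by rw [hG1, hx]⟩
    · refine ⟨h.symm y, ?_⟩
      rw [hG2, h.apply_symm_apply]
      intro h1
      rw [hιr, hint, h.apply_symm_apply] at h1
      exact hy h1
  have hloc : ∀ y ∈ (𝓡∂ (m + 1)).interior M,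
      IsLocalDiffeomorphAt (𝓡∂ (m + 1)) (𝓡∂ (m + 1)) ∞ G y := by
    intro y hy
    rw [← hιr] at hy
    obtain ⟨x, rfl⟩ := hy
    obtain ⟨p, hp1, hp2, hp3, hp4⟩ := ld_inverse (hιd x)
    have g1 : LD (m + 1) f' (p (ι x)) := by
      rw [hp2]
      exact h3 x
    have g2 := IsLocalDiffeomorphAt.comp (𝓡 (m + 1)) Y hp1 g1
    have g3 := IsLocalDiffeomorphAt.comp (𝓡∂ (m + 1)) N g2 (hκd _)
    refine ld_congr g3 ?_
    filter_upwards [hp4] with z hz
    show G z = κ (f' (p z))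
    rw [← hG1, hz]
  have hGb : ∀ x ∉ (𝓡∂ (m + 1)).interior M, G x = h x := by
    intro x hx
    exact hG2 x (by rwa [hιr])
  have hGc : Continuous G := by
    rw [continuous_iff_continuousAt]
    intro x
    by_cases hx : x ∈ (𝓡∂ (m + 1)).interior M
    · exact (hloc x hx).contMDiffAt.continuousAt
    · rw [ContinuousAt, hGb x hx]
      intro s hs
      obtain ⟨e, he, hes⟩ := hdn (h x) s hs
      have e1 : ∀ᶠ y in 𝓝 x, d (h y) (h x) < e :=
        h.continuous.continuousAt.eventually (hds (h x) e he)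
      have e2 : ∀ᶠ y in 𝓝 x, δ y < e := by
        have := hδ.continuousAt (x := x)
        rw [ContinuousAt, hδ0 x hx] at this
        exact this.eventually (gt_mem_nhds he)
      show ∀ᶠ y in 𝓝 x, G y ∈ s
      filter_upwards [e1, e2] with y hy1 hy2
      refine hes (h y) (G y) hy1 ?_
      by_cases g1 : y ∈ range ι
      · obtain ⟨z, rfl⟩ := g1
        rw [hG1]
        exact (h1 z).2.trans hy2
      · rw [hG2 y g1, hd0]
        exact he
  obtain ⟨Φ, hΦ⟩ : ∃ Φ : M ≃ₜ N, ∀ x, Φ x = G x :=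
    ⟨Continuous.homeoOfEquivCompactToT2 (f := Equiv.ofBijective G ⟨hGi, hGs⟩) hGc, fun x => rfl⟩
  have hΦG : (Φ : M → N) = G := funext hΦ
  refine ⟨Φ, fun x => ?_, fun x hx => ?_, fun x hx => ?_⟩
  · rw [hΦ]
    by_cases g1 : x ∈ range ι
    · obtain ⟨x, rfl⟩ := g1
      rw [hG1]
      exact (h1 x).1
    · rw [hG2 x g1]
      exact hhO x
  · rw [hΦ]
    exact hGb x hx
  · rw [hΦG]
    exact hloc x hx

/-- the version with engines on the interiors -/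
theorem mainInt (m : ℕ) (M N : Type) [TopologicalSpace M] [TopologicalSpace N]
    [ChartedSpace (EuclideanHalfSpace (m + 1)) M] [ChartedSpace (EuclideanHalfSpace (m + 1)) N]
    [IsManifold (𝓡∂ (m + 1)) ∞ M] [IsManifold (𝓡∂ (m + 1)) ∞ N] [T2Space M] [CompactSpace M]
    (h : M ≃ₜ N)
    (hc : (∀ x ∈ (𝓡∂ (m + 1)).interior M,
        IsLocalDiffeomorphAt (𝓡∂ (m + 1)) (𝓡∂ (m + 1)) ∞ h x ∨ CMonB (m + 1) h x) ∨
      (∀ x ∈ (𝓡∂ (m + 1)).interior M, ContMDiffAt (𝓡∂ (m + 1)) (𝓡∂ (m + 1)) ∞ h x ∧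
        m ≤ Module.finrank ℝ
          (LinearMap.range (mfderiv (𝓡∂ (m + 1)) (𝓡∂ (m + 1)) h x).toLinearMap)))
    (O : Set (M × N)) (hO : IsOpen O) (hhO : ∀ x, (x, h x) ∈ O) :
    ∃ Φ : M ≃ₜ N, (∀ x, (x, Φ x) ∈ O) ∧ (∀ x ∉ (𝓡∂ (m + 1)).interior M, Φ x = h x) ∧
      ∀ x ∈ (𝓡∂ (m + 1)).interior M,
        IsLocalDiffeomorphAt (𝓡∂ (m + 1)) (𝓡∂ (m + 1)) ∞ Φ x := by
  classical
  have : LocallyCompactSpace M := Manifold.locallyCompact_of_finiteDimensional (𝓡∂ (m + 1))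
  have : SecondCountableTopology (EuclideanHalfSpace (m + 1)) :=
    inferInstanceAs (SecondCountableTopology {x : EuclideanSpace ℝ (Fin (m + 1)) // 0 ≤ x 0})
  have : SecondCountableTopology M :=
    ChartedSpace.secondCountable_of_sigmaCompact (EuclideanHalfSpace (m + 1)) M
  have hio : IsOpen ((𝓡∂ (m + 1)).interior M) := isOpen_int (𝓡∂ (m + 1))
  have : LocallyCompactSpace ((𝓡∂ (m + 1)).interior M) := hio.locallyCompactSpace
  have : SigmaCompactSpace ((𝓡∂ (m + 1)).interior M) := inferInstance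
  have : T2Space N := h.t2Space
  have : SecondCountableTopology N := h.symm.secondCountableTopology
  have : CompactSpace N := h.compactSpace
  -- the function vanishing on the boundary
  obtain ⟨δ, hδ, hδ0, hδp⟩ : ∃ δ : M → ℝ, Continuous δ ∧
      (∀ x ∉ (𝓡∂ (m + 1)).interior M, δ x = 0) ∧
      ∀ x ∈ (𝓡∂ (m + 1)).interior M, 0 < δ x := by
    let _ : MetricSpace M := TopologicalSpace.metrizableSpaceMetric M
    by_cases hne : ((𝓡∂ (m + 1)).interior M)ᶜ.Nonempty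
    · refine ⟨fun x => infDist x ((𝓡∂ (m + 1)).interior M)ᶜ, continuous_infDist_pt _, ?_, ?_⟩
      · intro x hx
        exact infDist_zero_of_mem hx
      · intro x hx
        have h1 := (hio.isClosed_compl.notMem_iff_infDist_pos hne (x := x)).1
          (by simpa using hx)
        exact h1
    · refine ⟨fun _ => 1, continuous_const, fun x hx => absurd ⟨x, hx⟩ hne, fun _ _ => one_pos⟩
  obtain ⟨d, hd, hd0, hdn, hds⟩ : ∃ d : N → N → ℝ, (Continuous fun p : N × N => d p.1 p.2) ∧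
      (∀ y, d y y = 0) ∧
      (∀ (y : N) (s : Set N), s ∈ 𝓝 y → ∃ e : ℝ, 0 < e ∧ ∀ a b, d a y < e → d b a < e → b ∈ s) ∧
      (∀ y : N, ∀ e : ℝ, 0 < e → ∀ᶠ a in 𝓝 y, d a y < e) := by
    let _ : MetricSpace N := TopologicalSpace.metrizableSpaceMetric N
    refine ⟨fun a b => dist a b, continuous_dist, fun y => dist_self y, ?_, ?_⟩
    · intro y s hs
      obtain ⟨e, he, hes⟩ := Metric.mem_nhds_iff.1 hs
      refine ⟨e / 2, by linarith, fun a b h1 h2 => hes ?_⟩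
      rw [mem_ball]
      have := dist_triangle b a y
      linarith
    · intro y e he
      exact ball_mem_nhds y he
  let := csI (M := M) (𝓡∂ (m + 1))
  have := mfI (M := M) (𝓡∂ (m + 1))
  let := csI (M := N) (𝓡∂ (m + 1))
  have := mfI (M := N) (𝓡∂ (m + 1))
  refine coreInt m M N ((𝓡∂ (m + 1)).interior M) ((𝓡∂ (m + 1)).interior N) δ hδ hδ0 hδp d hd hd0
    hdn hds
    Subtype.val Subtype.val_injective Subtype.range_val (fun x => ldiff_val (𝓡∂ (m + 1)) x)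
    Subtype.val Subtype.val_injective Subtype.range_val (fun x => ldiff_val (𝓡∂ (m + 1)) x)
    h ?_ O hO hhO
  intro f hf O' hO' hfO'
  have hfl : ∀ x : (𝓡∂ (m + 1)).interior M, ∃ p : N → (𝓡∂ (m + 1)).interior N,
      IsLocalDiffeomorphAt (𝓡∂ (m + 1)) (𝓡 (m + 1)) ∞ p (h x) ∧
      ((f : (𝓡∂ (m + 1)).interior M → (𝓡∂ (m + 1)).interior N) =ᶠ[𝓝 x] fun x => p (h x)) := by
    intro x
    obtain ⟨p, hp1, hp2, hp3, hp4⟩ := ld_inverse (ldiff_val (𝓡∂ (m + 1)) (f x))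
    rw [hf] at hp1
    refine ⟨p, hp1, ?_⟩
    filter_upwards [f.continuous.continuousAt.eventually hp3] with y hy
    rw [← hf, hy]
  have hfld : ∀ x : (𝓡∂ (m + 1)).interior M,
      IsLocalDiffeomorphAt (𝓡∂ (m + 1)) (𝓡∂ (m + 1)) ∞ h x → LD (m + 1) f x := by
    intro x hx
    obtain ⟨p, hp1, hp2⟩ := hfl x
    have h1 := IsLocalDiffeomorphAt.comp (𝓡∂ (m + 1)) N (ldiff_val (𝓡∂ (m + 1)) x) hx
    have h2 := IsLocalDiffeomorphAt.comp (𝓡 (m + 1)) _ h1 (g := p) hp1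
    exact LD.congr h2 hp2
  rcases hc with hc | hc
  · obtain ⟨f', k1, k2, k3, -⟩ := cmInf (m + 1) _ _ f univ isOpen_univ (fun x hx =>
      ⟨mem_univ x, by
        rcases hc x.1 x.2 with h1 | h1
        · exact absurd (hfld x h1) hx
        · exact CMon_of_CMonB m Subtype.val Subtype.val_injective
            (fun x => ldiff_val (𝓡∂ (m + 1)) x)
            Subtype.val (fun x => ldiff_val (𝓡∂ (m + 1)) x) h f hf x h1⟩) O' hO' hfO'
    exact ⟨f', k1, k2, k3⟩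
  · obtain ⟨f', k1, k2, k3, -⟩ := coInf (m := m) f
      (contMDiff_lift m Subtype.val (fun x => ldiff_val (𝓡∂ (m + 1)) x) h f hfl
        (fun x => (hc x.1 x.2).1)) univ isOpen_univ (fun x hx =>
      ⟨mem_univ x, rank_lift m Subtype.val (fun x => ldiff_val (𝓡∂ (m + 1)) x)
        Subtype.val (fun x => ldiff_val (𝓡∂ (m + 1)) x) h f hf x (hc x.1 x.2).1
        (contMDiff_lift m Subtype.val (fun x => ldiff_val (𝓡∂ (m + 1)) x) h f hfl
          (fun x => (hc x.1 x.2).1)) (hc x.1 x.2).2⟩) O' hO' hfO'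
    exact ⟨f', k1, k2, k3⟩

end Pool.Agent.Q130.CM
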