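import Pool.Agent.Q130.CM.Stage
import Pool.Agent.Y66.CM.All

/-!
# Locally finite sequences of stages and their limit; cone monotone homeomorphisms of noncompact
manifolds
-/

set_option autoImplicit false

open Set Filter Topology Metric Function
open scoped Manifold ContDiff

noncomputable section

namespace Pool.Agent.Q130.CM

open Pool.Agent.Y522 Pool.Agent.Y66.CM

/-- locally finite pairs -/
theorem exists_pairs {X : Type} [TopologicalSpace X] [T2Space X] [LocallyCompactSpace X]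
    [SigmaCompactSpace X] (s : Set X) (hs : IsClosed s) (T : X → Set X) (hT : ∀ x ∈ s, T x ∈ 𝓝 x) :
    ∃ (α : Type) (_ : Countable α) (c : α → X) (D W : α → Set X), (∀ a, c a ∈ s) ∧
      (∀ a, IsCompact (D a)) ∧ (∀ a, IsOpen (W a)) ∧ (∀ a, D a ⊆ W a) ∧
      (∀ a, closure (W a) ⊆ T (c a)) ∧ (s ⊆ ⋃ a, D a) ∧
      LocallyFinite (fun a => closure (W a)) := by
  have hB : ∀ x ∈ s, (𝓝 x).HasBasis (fun W : Set X => x ∈ W ∧ IsOpen W ∧ IsCompact (closure W) ∧
      closure W ⊆ T x) (fun W => W) := by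
    intro x hx
    refine ⟨fun t => ⟨fun ht => ?_, ?_⟩⟩
    · obtain ⟨K, hK, hxK, hKt⟩ := exists_compact_subset (isOpen_interior (s := t ∩ T x))
        (mem_interior_iff_mem_nhds.2 (inter_mem ht (hT x hx)))
      have h1 : closure (interior K) ⊆ K := by
        refine (closure_mono interior_subset).trans ?_
        rw [hK.isClosed.closure_eq]
      refine ⟨interior K, ⟨hxK, isOpen_interior, hK.of_isClosed_subset isClosed_closure h1,
        fun y hy => (interior_subset (hKt (h1 hy))).2⟩,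
        fun y hy => (interior_subset (hKt (interior_subset hy))).1⟩
    · rintro ⟨W, ⟨h1, h2, -, -⟩, h3⟩
      exact mem_of_superset (h2.mem_nhds h1) h3
  obtain ⟨α, c, r, h1, h2, h3⟩ :=
    refinement_of_locallyCompact_sigmaCompact_of_nhds_basis_set.{0, 0} hs hB
  have hne : ∀ a, (r a).Nonempty := fun a => ⟨c a, (h1 a).2.1⟩
  have hα : Countable α := by
    have := h3.countable_univ hne
    exact countable_univ_iff.1 this
  obtain ⟨v, hv1, hv2, hv3⟩ := exists_subset_iUnion_closure_subset hs (fun a => (h1 a).2.2.1)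
    (fun x _ => h3.point_finite x) h2
  refine ⟨α, hα, c, fun a => closure (v a), r, fun a => (h1 a).1, fun a => ?_,
    fun a => (h1 a).2.2.1, hv3, fun a => (h1 a).2.2.2.2, ?_, h3.closure⟩
  · exact (h1 a).2.2.2.1.of_isClosed_subset isClosed_closure ((hv3 a).trans subset_closure)
  · exact hv1.trans (iUnion_mono fun a => subset_closure)

/-- **The limit of a locally finite sequence of stages.** -/
theorem limit (n : ℕ) {X Y : Type} [TopologicalSpace X] [ChartedSpace (E n) X]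
    [TopologicalSpace Y] [ChartedSpace (E n) Y] [T2Space X] [LocallyCompactSpace X]
    [SigmaCompactSpace X] (f : X ≃ₜ Y) (P : (X ≃ₜ Y) → Prop) (hP : P f) {α : Type} [Countable α]
    (D W : α → Set X) (hlf : LocallyFinite W) (O : Set (X × Y)) (hO : IsOpen O)
    (hfO : ∀ x, (x, f x) ∈ O) (hcov : ∀ x, ¬ LD n f x → ∃ a, x ∈ D a)
    (hst : ∀ (a : α) (g : X ≃ₜ Y) (O' : Set (X × Y)), IsOpen O' → O' ⊆ O → P g →
      (∀ x, (x, g x) ∈ O') → ∃ g' : X ≃ₜ Y, P g' ∧ (∀ x, (x, g' x) ∈ O') ∧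
        (∀ x, LD n g x → LD n g' x) ∧ (∀ x ∈ D a, LD n g' x) ∧ ∀ x, x ∉ W a → g' x = g x) :
    ∃ f' : X → Y, (∀ x, (x, f' x) ∈ O) ∧ Bijective f' ∧ (∀ x, LD n f' x) ∧
      ∀ x, (∀ a, x ∉ W a) → f' x = f x := by
  classical
  let enc : Encodable α := Encodable.ofCountable α
  let K : CompactExhaustion X := CompactExhaustion.choice X
  let C2 : ℕ → Set (X × Y) := fun n => (interior (K (n + 1)))ᶜ ×ˢ (f.symm ⁻¹' (K n))
  have hC2 : ∀ n, IsClosed (C2 n) := fun n =>
    (isOpen_interior.isClosed_compl).prod ((K.isClosed n).preimage f.symm.continuous)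
  have hC2l : LocallyFinite C2 := by
    intro p
    obtain ⟨n, hn⟩ := K.exists_mem p.1
    refine ⟨Prod.fst ⁻¹' (interior (K (n + 1))),
      (isOpen_interior.preimage continuous_fst).mem_nhds (K.subset_interior_succ n hn), ?_⟩
    refine (finite_le_nat n).subset ?_
    rintro k ⟨q, hq1, hq2⟩
    have h1 : q.1 ∉ interior (K (k + 1)) := hq1.1
    have h2 : q.1 ∈ interior (K (n + 1)) := hq2
    show k ≤ n
    by_contra hk
    push Not at hk
    exact h1 (interior_mono (K.subset (by omega)) h2)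
  obtain ⟨O', hO'd⟩ : ∃ O' : Set (X × Y), O' = O ∩ (⋃ n, C2 n)ᶜ := ⟨_, rfl⟩
  have hO' : IsOpen O' := by
    rw [hO'd]
    exact hO.inter (hC2l.isClosed_iUnion hC2).isOpen_compl
  have hfO' : ∀ x, (x, f x) ∈ O' := by
    intro x
    rw [hO'd]
    refine ⟨hfO x, ?_⟩
    intro h
    obtain ⟨n, h1, h2⟩ := mem_iUnion.1 h
    refine h1 (K.subset_interior_succ n ?_)
    have h3 : f.symm (f x) ∈ K n := h2
    rwa [f.symm_apply_apply] at h3
  -- the sequence
  have hnext : ∀ (k : ℕ) (G : {G : X ≃ₜ Y // P G ∧ ∀ x, (x, G x) ∈ O'}),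
      ∃ G' : {G : X ≃ₜ Y // P G ∧ ∀ x, (x, G x) ∈ O'},
        (∀ x, LD n G.1 x → LD n G'.1 x) ∧
        (∀ j : α, Encodable.encode j = k → ∀ x ∈ D j, LD n G'.1 x) ∧
        ∀ x, (∀ j : α, Encodable.encode j = k → x ∉ W j) → G'.1 x = G.1 x := by
    rintro k ⟨G, hG, hGO⟩
    by_cases hk : ∃ j : α, Encodable.encode j = k
    · obtain ⟨κ, hκ⟩ := hk
      obtain ⟨G', h1, h2, h3, h4, h5⟩ := hst κ G O' hO' (by rw [hO'd]; exact inter_subset_left)
        hG hGO
      refine ⟨⟨G', h1, h2⟩, h3, ?_, fun x hx => h5 x (hx κ hκ)⟩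
      intro j hj
      have : j = κ := Encodable.encode_injective (hj.trans hκ.symm)
      subst this
      exact h4
    · exact ⟨⟨G, hG, hGO⟩, fun x hx => hx, fun j hj => absurd ⟨j, hj⟩ hk, fun x _ => rfl⟩
  choose next hn1 hn2 hn3 using hnext
  let Gs : ℕ → {G : X ≃ₜ Y // P G ∧ ∀ x, (x, G x) ∈ O'} := fun n =>
    Nat.rec (motive := fun _ => {G : X ≃ₜ Y // P G ∧ ∀ x, (x, G x) ∈ O'}) ⟨f, hP, hfO'⟩
      (fun k G => next k G) n
  have hGs : ∀ k, Gs (k + 1) = next k (Gs k) := fun k => rfl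
  obtain ⟨G, hG⟩ : ∃ G : ℕ → X → Y, ∀ k, G k = (Gs k).1 := ⟨_, fun k => rfl⟩
  have hG0 : G 0 = f := hG 0
  have hGb : ∀ k, Bijective (G k) := fun k => by rw [hG]; exact (Gs k).1.bijective
  have hGO : ∀ k x, (x, G k x) ∈ O' := fun k => by rw [hG]; exact (Gs k).2.2
  have hGk : ∀ k x, LD n (G k) x → LD n (G (k + 1)) x := by
    intro k x hx
    rw [hG, hGs]
    rw [hG] at hx
    exact hn1 k _ x hx
  have hGg : ∀ j : α, ∀ x ∈ D j, LD n (G (Encodable.encode j + 1)) x := by
    intro j z hz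
    rw [hG, hGs]
    exact hn2 _ _ j rfl z hz
  have hGo : ∀ k x, (∀ j : α, Encodable.encode j = k → x ∉ W j) → G (k + 1) x = G k x := by
    intro k x hx
    rw [hG, hGs, hG]
    exact hn3 k _ x hx
  have hmono : ∀ k l, k ≤ l → ∀ x, LD n (G k) x → LD n (G l) x := by
    intro k l hkl x hx
    induction l, hkl using Nat.le_induction with
    | base => exact hx
    | succ l _ ih => exact hGk l x ih
  -- stability on small and on compact sets
  have hstab : ∀ S : Set X, {j | (W j ∩ S).Nonempty}.Finite →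
      ∃ k₀ : ℕ, ∀ k, k₀ ≤ k → ∀ x ∈ S, G k x = G k₀ x := by
    intro S hS
    obtain ⟨k₀, hk₀⟩ := (hS.image (fun j : α => (Encodable.encode j : ℕ))).bddAbove
    refine ⟨k₀ + 1, fun k hk x hx => ?_⟩
    induction k, hk using Nat.le_induction with
    | base => rfl
    | succ k hk ih =>
      rw [hGo k x, ih]
      intro j hj hxj
      have h1 : Encodable.encode j ≤ k₀ := hk₀ ⟨j, ⟨x, hxj, hx⟩, rfl⟩
      omega
  have hloc : ∀ x : X, ∃ t ∈ 𝓝 x, ∃ k₀ : ℕ, ∀ k, k₀ ≤ k → ∀ y ∈ t, G k y = G k₀ y := by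
    intro x
    obtain ⟨t, ht, ht2⟩ := hlf x
    exact ⟨t, ht, hstab t ht2⟩
  choose t ht kx hkx using hloc
  obtain ⟨F, hF⟩ : ∃ F : X → Y, ∀ x, F x = G (kx x) x := ⟨_, fun x => rfl⟩
  have hFk : ∀ x k, kx x ≤ k → G k x = F x := by
    intro x k hk
    rw [hF]
    exact hkx x k hk x (mem_of_mem_nhds (ht x))
  have hFt : ∀ x, ∀ k, kx x ≤ k → ∀ y ∈ t x, G k y = F y := by
    intro x k hk y hy
    have h1 : G (max k (kx y)) y = F y := hFk y _ (le_max_right _ _)
    rw [← h1, hkx x k hk y hy, hkx x _ (hk.trans (le_max_left _ _)) y hy]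
  have hLDF : ∀ x k, kx x ≤ k → LD n (G k) x → LD n F x := by
    intro x k hk hx
    refine hx.congr ?_
    filter_upwards [ht x] with y hy
    exact (hFt x k hk y hy).symm
  refine ⟨F, ?_, ⟨?_, ?_⟩, ?_, ?_⟩
  · intro x
    rw [hF]
    have h := hGO (kx x) x
    rw [hO'd] at h
    exact h.1
  · intro x y hxy
    have h1 := hFk x (max (kx x) (kx y)) (le_max_left _ _)
    have h2 := hFk y (max (kx x) (kx y)) (le_max_right _ _)
    rw [← h1, ← h2] at hxy
    exact (hGb _).1 hxy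
  · intro y
    obtain ⟨n, hn⟩ := K.exists_mem (f.symm y)
    obtain ⟨k₀, hk₀⟩ := hstab (K (n + 1)) (hlf.finite_nonempty_inter_compact (K.isCompact _))
    obtain ⟨x, hx⟩ := (hGb k₀).2 y
    have hxK : x ∈ K (n + 1) := by
      by_contra hcon
      have h := hGO k₀ x
      rw [hO'd] at h
      refine h.2 (mem_iUnion.2 ⟨n, fun h' => hcon (interior_subset h'), ?_⟩)
      show f.symm (G k₀ x) ∈ K n
      rw [hx]
      exact hn
    refine ⟨x, ?_⟩
    have h1 := hFk x (max (kx x) k₀) (le_max_left _ _)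
    rw [← h1, hk₀ _ (le_max_right _ _) x hxK, hx]
  · intro x
    by_cases hx : LD n f x
    · refine hLDF x (kx x) le_rfl (hmono 0 _ (Nat.zero_le _) x ?_)
      rw [hG0]
      exact hx
    · obtain ⟨j, hj⟩ := hcov x hx
      exact hLDF x (max (kx x) (Encodable.encode j + 1)) (le_max_left _ _)
        (hmono _ _ (le_max_right _ _) x (hGg j x hj))
  · intro x hx
    rw [hF]
    have h1 : ∀ k, G k x = f x := by
      intro k
      induction k with
      | zero => rw [hG0]
      | succ k ih =>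
        rw [hGo k x, ih]
        intro j _
        exact hx j
    exact h1 _

/-- **Cone monotone homeomorphisms are limits of diffeomorphisms**, relative version for noncompact
manifolds. -/
theorem cmInf (n : ℕ) (X Y : Type) [TopologicalSpace X] [T2Space X] [ChartedSpace (E n) X]
    [IsManifold (𝓡 n) ∞ X] [SigmaCompactSpace X] [TopologicalSpace Y] [T2Space Y]
    [ChartedSpace (E n) Y] [IsManifold (𝓡 n) ∞ Y] (f : X ≃ₜ Y)
    (V : Set X) (hV : IsOpen V) (hbad : ∀ x, ¬ LD n f x → x ∈ V ∧ CMon n f x)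
    (O : Set (X × Y)) (hO : IsOpen O) (hfO : ∀ x, (x, f x) ∈ O) :
    ∃ f' : X → Y, (∀ x, (x, f' x) ∈ O) ∧ Bijective f' ∧ (∀ x, LD n f' x) ∧
      ∀ x, x ∉ V → f' x = f x := by
  have : LocallyCompactSpace X := ChartedSpace.locallyCompactSpace (E n) X
  have hs : IsClosed {x | ¬ LD n f x} := by
    rw [← isOpen_compl_iff, isOpen_iff_mem_nhds]
    intro x hx
    have hx' : LD n f x := by
      by_contra h
      exact hx h
    filter_upwards [hx'.eventually] with y hy h using h hy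
  obtain ⟨α, hα, c, D, W, h1, h2, h3, h4, h5, h6, h7⟩ := exists_pairs {x | ¬ LD n f x} hs
    (fun x => V ∩ f ⁻¹' (chartAt (E n) (f x)).source)
    (fun x hx => inter_mem (hV.mem_nhds (hbad x hx).1)
      (f.continuous.continuousAt.preimage_mem_nhds
        ((chartAt (E n) (f x)).open_source.mem_nhds (mem_chart_source _ _))))
  -- the neighbourhood of the graph
  let C1 : α → Set (X × Y) := fun a =>
    closure (W a) ×ˢ (chartAt (E n) (f (c a))).sourceᶜ
  have hC1 : ∀ a, IsClosed (C1 a) := fun a =>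
    isClosed_closure.prod (chartAt (E n) (f (c a))).open_source.isClosed_compl
  have hC1l : LocallyFinite C1 := by
    have h1 : LocallyFinite fun a => (Prod.fst ⁻¹' closure (W a) : Set (X × Y)) :=
      h7.preimage_continuous continuous_fst
    exact h1.subset fun a p hp => hp.1
  obtain ⟨O', hO'd⟩ : ∃ O' : Set (X × Y), O' = O ∩ (⋃ a, C1 a)ᶜ := ⟨_, rfl⟩
  have hO' : IsOpen O' := by
    rw [hO'd]
    exact hO.inter (hC1l.isClosed_iUnion hC1).isOpen_compl
  have hfO' : ∀ x, (x, f x) ∈ O' := by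
    intro x
    rw [hO'd]
    refine ⟨hfO x, fun h => ?_⟩
    obtain ⟨a, h8, h9⟩ := mem_iUnion.1 h
    exact h9 (h5 a h8).2
  have hO'W : ∀ p ∈ O', ∀ a, p.1 ∈ W a → p.2 ∈ (chartAt (E n) (f (c a))).source := by
    intro p hp a hpa
    rw [hO'd] at hp
    by_contra hcon
    exact hp.2 (mem_iUnion.2 ⟨a, subset_closure hpa, hcon⟩)
  obtain ⟨f', g1, g2, g3, g4⟩ := limit n f (fun g => ∀ x, LD n g x ∨ CMon n g x)
    (fun x => by
      by_cases hx : LD n f x
      · exact Or.inl hx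
      · exact Or.inr (hbad x hx).2)
    D W (h7.subset fun a => subset_closure) O' hO' hfO'
    (fun x hx => mem_iUnion.1 (h6 hx))
    (fun a g O'' hO'' hsub hg hgO => by
      obtain ⟨g', k1, k2, k3, k4, k5⟩ := stageH n X Y g hg (D a) (W a) (h2 a) (h3 a) (h4 a)
        (chartAt (E n) (f (c a))).source (chartAt (E n) (f (c a))).open_source
        (chartAt (E n) (f (c a))) (chartAt (E n) (f (c a))).injOn
        (fun y hy => LD_chart _ y hy)
        (fun x hx => hO'W _ (hsub (hgO x)) a hx) O'' hO'' hgO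
      exact ⟨g', k1, k2, k3, k4, k5⟩)
  refine ⟨f', fun x => ?_, g2, g3, fun x hx => g4 x fun a ha => hx (h5 a (subset_closure ha)).1⟩
  have h := g1 x
  rw [hO'd] at h
  exact h.1

end Pool.Agent.Q130.CM
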