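import Pool.Agent.Q130.CM.MixA
import Pool.Agent.Q130.CM.Int

/-!
# Homeomorphisms which are at every point a local diffeomorphism, cone monotone, or smooth of
corank at most one
-/

set_option autoImplicit false

open Set Filter Topology Metric Function
open scoped Manifold ContDiff

noncomputable section

namespace Pool.Agent.Q130.CM

open Pool.Agent.Y522 Pool.Agent.Y66.CM Pool.Agent.Y170.NA

/-- cone monotonicity is an open condition -/
theorem CMon_eventually (n : ℕ) {X Y : Type} [TopologicalSpace X] [ChartedSpace (E n) X]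
    [TopologicalSpace Y] [ChartedSpace (E n) Y] (f : X → Y) (hf : Continuous f) (x : X)
    (h : CMon n f x) : ∀ᶠ y in 𝓝 x, CMon n f y := by
  obtain ⟨B, hB, hC⟩ := h
  have hW : f ⁻¹' {y | LD n B y} ∈ 𝓝 x := hf.continuousAt.preimage_mem_nhds hB.eventually
  obtain ⟨C, κ, hκ, hC0, hinj, hLD, hmem, hbox⟩ :=
    cbox_exists (isOpen_interior (s := f ⁻¹' {y | LD n B y})) (mem_interior_iff_mem_nhds.2 hW) hC
  have h0 : LD n C 0 := hLD 0 (by simp)
  obtain ⟨p, hp1, hp2, hp3, hp4⟩ := h0.exists_inverse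
  rw [hC0] at hp1 hp2 hp4
  have h1 : ∀ᶠ y in 𝓝 x, ‖p y‖ ≤ 1 := by
    have h2 : Tendsto (fun y => ‖p y‖) (𝓝 x) (𝓝 0) := by
      have h3 := hp1.continuousAt.norm.tendsto
      simp only [hp2, norm_zero] at h3
      exact h3
    exact (h2.eventually (gt_mem_nhds one_pos)).mono fun y hy => hy.le
  filter_upwards [h1, hp4, hW] with y hy1 hy2 hy3
  refine ⟨B, hy3, ?_⟩
  have h5 := CMonE_of_CBox hκ (hbox.mono (by norm_num) le_rfl) hy1
    (hLD (p y) (by rw [mem_closedBall_zero_iff]; linarith))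
  rw [hy2] at h5
  exact h5

/-- `f` is smooth near `x`, of corank at most one -/
def Co1 (m : ℕ) {X Y : Type} [TopologicalSpace X] [ChartedSpace (E (m + 1)) X]
    [TopologicalSpace Y] [ChartedSpace (E (m + 1)) Y] (f : X → Y) (x : X) : Prop :=
  ∀ᶠ y in 𝓝 x, ContMDiffAt (𝓡 (m + 1)) (𝓡 (m + 1)) ∞ f y ∧ m ≤ Module.finrank ℝ
      (LinearMap.range (mfderiv (𝓡 (m + 1)) (𝓡 (m + 1)) f y).toLinearMap)

section

variable {m : ℕ} {X Y : Type} [TopologicalSpace X] [ChartedSpace (E (m + 1)) X]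
  [TopologicalSpace Y] [ChartedSpace (E (m + 1)) Y]

/-- a map of open submanifolds -/
theorem LD_sub (U : TopologicalSpace.Opens X) (W : TopologicalSpace.Opens Y) (g : U → W)
    (f : X → Y) (hfg : ∀ u : U, (g u : Y) = f u) (u : U) (h : LD (m + 1) g u) :
    LD (m + 1) f (u : X) := by
  obtain ⟨p, hp1, hp2, hp3, hp4⟩ := (LD_val (n := m + 1) U u).exists_inverse
  have h1 : LD (m + 1) (fun x => ((g (p x) : W) : Y)) (u : X) := by
    refine LD.comp_fun (g := fun v : U => ((g v : W) : Y)) ?_ hp1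
    rw [hp2]
    exact LD.comp_fun (g := (Subtype.val : W → Y)) (LD_val W _) h
  refine h1.congr ?_
  filter_upwards [hp4] with x hx
  rw [hfg (p x), hx]

theorem LD_sub' (U : TopologicalSpace.Opens X) (W : TopologicalSpace.Opens Y) (g : U → W)
    (f : X → Y) (hfg : ∀ u : U, (g u : Y) = f u) (hg : Continuous g) (u : U)
    (h : LD (m + 1) f (u : X)) : LD (m + 1) g u := by
  obtain ⟨p, hp1, hp2, hp3, hp4⟩ := (LD_val (n := m + 1) W (g u)).exists_inverse
  have h1 : LD (m + 1) (fun v : U => p (f (v : X))) u := by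
    refine LD.comp_fun (g := p) ?_ (LD.comp_fun (g := f) h (LD_val U u))
    rw [← hfg u]
    exact hp1
  refine h1.congr ?_
  have h2 : ∀ᶠ v in 𝓝 u, p ((g v : W) : Y) = g v := hg.continuousAt.eventually hp3
  filter_upwards [h2] with v hv
  rw [← hfg v, hv]

variable [IsManifold (𝓡 (m + 1)) ∞ X] [IsManifold (𝓡 (m + 1)) ∞ Y]

theorem smooth_sub (U : TopologicalSpace.Opens X) (W : TopologicalSpace.Opens Y) (g : U → W)
    (f : X → Y) (hfg : ∀ u : U, (g u : Y) = f u) (hg : Continuous g) (u : U)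
    (h : ContMDiffAt (𝓡 (m + 1)) (𝓡 (m + 1)) ∞ f (u : X)) :
    ContMDiffAt (𝓡 (m + 1)) (𝓡 (m + 1)) ∞ g u := by
  obtain ⟨p, hp1, hp2, hp3, hp4⟩ := (LD_val (n := m + 1) W (g u)).exists_inverse
  have h1 : ContMDiffAt (𝓡 (m + 1)) (𝓡 (m + 1)) ∞ (fun v : U => p (f (v : X))) u := by
    have h2 : ContMDiffAt (𝓡 (m + 1)) (𝓡 (m + 1)) ∞ p (f (u : X)) := by
      rw [← hfg u]
      exact hp1.contMDiffAt
    exact h2.comp u (h.comp u (LD_val (n := m + 1) U u).contMDiffAt)
  refine h1.congr_of_eventuallyEq ?_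
  have h2 : ∀ᶠ v in 𝓝 u, p ((g v : W) : Y) = g v := hg.continuousAt.eventually hp3
  filter_upwards [h2] with v hv
  rw [← hfg v, hv]

theorem rank_sub (U : TopologicalSpace.Opens X) (W : TopologicalSpace.Opens Y) (g : U → W)
    (f : X → Y) (hfg : ∀ u : U, (g u : Y) = f u) (hg : Continuous g) (u : U)
    (h : ContMDiffAt (𝓡 (m + 1)) (𝓡 (m + 1)) ∞ f (u : X))
    (hr : m ≤ Module.finrank ℝ
      (LinearMap.range (mfderiv (𝓡 (m + 1)) (𝓡 (m + 1)) f (u : X)).toLinearMap)) :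
    m ≤ Module.finrank ℝ
      (LinearMap.range (mfderiv (𝓡 (m + 1)) (𝓡 (m + 1)) g u).toLinearMap) := by
  have hgs := smooth_sub U W g f hfg hg u h
  have e1 : mfderiv (𝓡 (m + 1)) (𝓡 (m + 1)) ((Subtype.val : W → Y) ∘ g) u =
      (mfderiv (𝓡 (m + 1)) (𝓡 (m + 1)) (Subtype.val : W → Y) (g u)).comp
        (mfderiv (𝓡 (m + 1)) (𝓡 (m + 1)) g u) :=
    mfderiv_comp u ((LD_val W (g u)).mdifferentiableAt) (hgs.mdifferentiableAt (by simp))
  have e2 : mfderiv (𝓡 (m + 1)) (𝓡 (m + 1)) (f ∘ (Subtype.val : U → X)) u =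
      (mfderiv (𝓡 (m + 1)) (𝓡 (m + 1)) f (u : X)).comp
        (mfderiv (𝓡 (m + 1)) (𝓡 (m + 1)) (Subtype.val : U → X) u) :=
    mfderiv_comp u (h.mdifferentiableAt (by simp)) ((LD_val U u).mdifferentiableAt)
  have e3 : (Subtype.val : W → Y) ∘ g = f ∘ (Subtype.val : U → X) := funext fun x => hfg x
  let A : E (m + 1) →L[ℝ] E (m + 1) := mfderiv (𝓡 (m + 1)) (𝓡 (m + 1)) (Subtype.val : W → Y) (g u)
  let B : E (m + 1) →L[ℝ] E (m + 1) := mfderiv (𝓡 (m + 1)) (𝓡 (m + 1)) g u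
  let C : E (m + 1) →L[ℝ] E (m + 1) := mfderiv (𝓡 (m + 1)) (𝓡 (m + 1)) f (u : X)
  let D : E (m + 1) →L[ℝ] E (m + 1) := mfderiv (𝓡 (m + 1)) (𝓡 (m + 1)) (Subtype.val : U → X) u
  have e4 : A.comp B = C.comp D := by
    show (mfderiv (𝓡 (m + 1)) (𝓡 (m + 1)) (Subtype.val : W → Y) (g u)).comp
        (mfderiv (𝓡 (m + 1)) (𝓡 (m + 1)) g u) =
      (mfderiv (𝓡 (m + 1)) (𝓡 (m + 1)) f (u : X)).comp
        (mfderiv (𝓡 (m + 1)) (𝓡 (m + 1)) (Subtype.val : U → X) u)
    rw [← e1, ← e2, e3]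
  have hC : m ≤ Module.finrank ℝ (LinearMap.range C.toLinearMap) := hr
  have hDi : Injective D := (LD_val (n := m + 1) U u).mfderiv_injective
  have hD : Surjective D := (LinearMap.injective_iff_surjective (f := D.toLinearMap)).1 hDi
  show m ≤ Module.finrank ℝ (LinearMap.range B.toLinearMap)
  have e5 : LinearMap.range C.toLinearMap ≤
      Submodule.map A.toLinearMap (LinearMap.range B.toLinearMap) := by
    rintro _ ⟨v, rfl⟩
    obtain ⟨w, hw⟩ := hD v
    refine ⟨B w, ⟨w, rfl⟩, ?_⟩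
    have := congrArg (fun T => T w) e4
    show A (B w) = C v
    rw [← hw]
    exact this
  exact hC.trans ((Submodule.finrank_mono e5).trans (Submodule.finrank_map_le _ _))

end

/-- **The mixed theorem.** -/
theorem mixInf (m : ℕ) (hm : 1 ≤ m) (X Y : Type) [TopologicalSpace X] [T2Space X]
    [ChartedSpace (E (m + 1)) X] [IsManifold (𝓡 (m + 1)) ∞ X] [SigmaCompactSpace X]
    [TopologicalSpace Y] [T2Space Y] [ChartedSpace (E (m + 1)) Y] [IsManifold (𝓡 (m + 1)) ∞ Y]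
    (f : X ≃ₜ Y) (V : Set X) (hV : IsOpen V)
    (hbad : ∀ x, ¬ LD (m + 1) f x → x ∈ V ∧ (CMon (m + 1) f x ∨ Co1 m f x))
    (O : Set (X × Y)) (hO : IsOpen O) (hfO : ∀ x, (x, f x) ∈ O) :
    ∃ f' : X → Y, (∀ x, (x, f' x) ∈ O) ∧ Bijective f' ∧ (∀ x, LD (m + 1) f' x) ∧
      ∀ x, x ∉ V → f' x = f x := by
  classical
  have : LocallyCompactSpace X := ChartedSpace.locallyCompactSpace (E (m + 1)) X
  have : SecondCountableTopology X :=
    ChartedSpace.secondCountable_of_sigmaCompact (E (m + 1)) X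
  -- the open set of smooth points of corank at most one
  obtain ⟨U, hU⟩ : ∃ U : TopologicalSpace.Opens X, ∀ x, x ∈ U ↔ Co1 m f x := by
    refine ⟨⟨{x | Co1 m f x}, ?_⟩, fun x => Iff.rfl⟩
    rw [isOpen_iff_mem_nhds]
    intro x hx
    exact eventually_eventually_nhds.2 hx
  obtain ⟨W, hW⟩ : ∃ W : TopologicalSpace.Opens Y, ∀ y, y ∈ W ↔ f.symm y ∈ U :=
    ⟨⟨f.symm ⁻¹' U, U.2.preimage f.symm.continuous⟩, fun y => Iff.rfl⟩
  have hfW : ∀ x, x ∈ U ↔ f x ∈ W := fun x => by rw [hW, f.symm_apply_apply]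
  have hUsm : ∀ x ∈ U, ∀ᶠ y in 𝓝 x, ContMDiffAt (𝓡 (m + 1)) (𝓡 (m + 1)) ∞ f y := fun x hx =>
    ((hU x).1 hx).mono fun y hy => hy.1
  have hUr : ∀ x ∈ U, m ≤ Module.finrank ℝ
      (LinearMap.range (mfderiv (𝓡 (m + 1)) (𝓡 (m + 1)) f x).toLinearMap) := fun x hx =>
    ((hU x).1 hx).self_of_nhds.2
  -- the open set of the other good points
  have hG : IsOpen {x | LD (m + 1) f x ∨ CMon (m + 1) f x} := by
    rw [isOpen_iff_mem_nhds]
    rintro x (hx | hx)
    · exact mem_of_superset hx.eventually fun y hy => Or.inl hy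
    · exact mem_of_superset (CMon_eventually (m + 1) f f.continuous x hx) fun y hy => Or.inr hy
  have hZ : {x | LD (m + 1) f x ∨ CMon (m + 1) f x}ᶜ ⊆ (U : Set X) ∩ V := by
    intro x hx
    have h1 : ¬ LD (m + 1) f x := fun h => hx (Or.inl h)
    obtain ⟨h2, h3 | h3⟩ := hbad x h1
    · exact absurd (Or.inr h3) hx
    · exact ⟨(hU x).2 h3, h2⟩
  obtain ⟨V1, hV1, hZV, hVU⟩ := normal_exists_closure_subset hG.isClosed_compl (U.2.inter hV) hZ
  -- the map of the open submanifolds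
  let g : U ≃ₜ W := f.subtype hfW
  have hg : ∀ u : U, ((g u : W) : Y) = f u := fun u => rfl
  have hgs : ContMDiff (𝓡 (m + 1)) (𝓡 (m + 1)) ∞ g := fun u =>
    smooth_sub U W g f hg g.continuous u (hUsm u u.2).self_of_nhds
  have : LocallyCompactSpace U := ChartedSpace.locallyCompactSpace (E (m + 1)) U
  obtain ⟨g', hg'O, hg'b, hg'd, hg'V⟩ := Pool.Agent.Q130.CX.coInf (m := m) g hgs
    (Subtype.val ⁻¹' V1) (hV1.preimage continuous_subtype_val) (fun u hu => by
      have h1 : ¬ LD (m + 1) f (u : X) := fun h =>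
        hu (LD_sub' U W g f hg g.continuous u h)
      have h2 : ¬ CMon (m + 1) f (u : X) := fun h =>
        h1 (LD_of_CMon (m + 1) f u (hUsm u u.2) (hm.trans (hUr u u.2)) h)
      refine ⟨hZV ?_, rank_sub U W g f hg g.continuous u (hUsm u u.2).self_of_nhds (hUr u u.2)⟩
      rintro (h | h)
      · exact h1 h
      · exact h2 h)
    ((fun p : U × W => ((p.1 : X), (p.2 : Y))) ⁻¹' O)
    (hO.preimage (by fun_prop)) (fun u => hfO u)
  -- gluing
  let f1 : X → Y := fun x => if h : x ∈ U then ((g' ⟨x, h⟩ : W) : Y) else f x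
  have h1in : ∀ u : U, f1 (u : X) = g' u := fun u => by
    show (if h : (u : X) ∈ U then ((g' ⟨u, h⟩ : W) : Y) else f u) = g' u
    rw [dif_pos u.2]
  have h1out : ∀ x, x ∉ V1 → f1 x = f x := by
    intro x hx
    by_cases hxU : x ∈ U
    · have h2 := h1in ⟨x, hxU⟩
      rw [hg'V ⟨x, hxU⟩ hx] at h2
      exact h2
    · show (if h : x ∈ U then ((g' ⟨x, h⟩ : W) : Y) else f x) = f x
      rw [dif_neg hxU]
  have h1LD : ∀ x ∈ U, LD (m + 1) f1 x := fun x hx =>
    LD_sub U W g' f1 (fun u => (h1in u).symm) ⟨x, hx⟩ (hg'd _)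
  have h1loc : ∀ x, x ∉ U → f1 =ᶠ[𝓝 x] f := by
    intro x hx
    have h2 : x ∈ (closure V1)ᶜ := fun h => hx (hVU h).1
    filter_upwards [isClosed_closure.isOpen_compl.mem_nhds h2] with y hy
    exact h1out y fun h => hy (subset_closure h)
  have h1c : Continuous f1 := by
    rw [continuous_iff_continuousAt]
    intro x
    by_cases hx : x ∈ U
    · exact (h1LD x hx).continuousAt
    · exact f.continuous.continuousAt.congr (h1loc x hx).symm
  have h1b : Bijective f1 := by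
    constructor
    · intro a b hab
      by_cases ha : a ∈ U
      · by_cases hb : b ∈ U
        · have h2 := h1in ⟨a, ha⟩
          have h3 := h1in ⟨b, hb⟩
          have h4 : g' ⟨a, ha⟩ = g' ⟨b, hb⟩ := Subtype.ext (h2.symm.trans (hab.trans h3))
          exact congrArg Subtype.val (hg'b.1 h4)
        · exfalso
          have h2 := h1in ⟨a, ha⟩
          have h3 : f1 b = f b := (h1loc b hb).self_of_nhds
          apply hb
          rw [hfW, ← h3, ← hab, h2]
          exact (g' ⟨a, ha⟩).2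
      · by_cases hb : b ∈ U
        · exfalso
          have h2 := h1in ⟨b, hb⟩
          have h3 : f1 a = f a := (h1loc a ha).self_of_nhds
          apply ha
          rw [hfW, ← h3, hab, h2]
          exact (g' ⟨b, hb⟩).2
        · have h3 : f1 a = f a := (h1loc a ha).self_of_nhds
          have h4 : f1 b = f b := (h1loc b hb).self_of_nhds
          exact f.injective (by rw [← h3, ← h4, hab])
    · intro y
      by_cases hy : y ∈ W
      · obtain ⟨u, hu⟩ := hg'b.2 ⟨y, hy⟩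
        exact ⟨u, by rw [h1in u, hu]⟩
      · have h2 : f.symm y ∉ U := fun h => hy ((hW y).2 h)
        refine ⟨f.symm y, ?_⟩
        rw [(h1loc _ h2).self_of_nhds, f.apply_symm_apply]
  have h1O : ∀ x, (x, f1 x) ∈ O := by
    intro x
    by_cases hx : x ∈ U
    · have h2 := hg'O ⟨x, hx⟩
      rw [h1in ⟨x, hx⟩]
      exact h2
    · rw [(h1loc x hx).self_of_nhds]
      exact hfO x
  let F1 : X ≃ₜ Y := (Equiv.ofBijective f1 h1b).toHomeomorphOfContinuousOpen h1c
    (isOpenMap_of_injective (m + 1) f1 h1c h1b.1)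
  obtain ⟨f', h2O, h2b, h2d, h2V⟩ := cmInf (m + 1) X Y F1 V hV (fun x hx => by
    have hx' : ¬ LD (m + 1) f1 x := hx
    have hxU : x ∉ U := fun h => hx' (h1LD x h)
    have h2 : ¬ LD (m + 1) f x := fun h => hx' (h.congr (h1loc x hxU))
    obtain ⟨h3, h4 | h4⟩ := hbad x h2
    · exact ⟨h3, h4.congr (h1loc x hxU)⟩
    · exact absurd ((hU x).2 h4) hxU) O hO h1O
  refine ⟨f', h2O, h2b, h2d, fun x hx => ?_⟩
  rw [h2V x hx]
  exact h1out x fun h => hx (hVU (subset_closure h)).2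

end Pool.Agent.Q130.CM
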