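import Pool.Agent.Y66.CM.All
import Pool.Agent.Y761.CI.Pre

/-!
# Smooth points of corank at most one and cone monotone points
-/

set_option autoImplicit false

open Set Filter Topology Metric Function
open scoped Manifold ContDiff

noncomputable section

namespace Pool.Agent.Q130.CM

open Pool.Agent.Y522 Pool.Agent.Y66.CM

/-- the map in charts at a point near which it is smooth -/
theorem in_charts (n : ℕ) {X Y : Type} [TopologicalSpace X] [ChartedSpace (E n) X]
    [IsManifold (𝓡 n) ∞ X] [TopologicalSpace Y] [ChartedSpace (E n) Y] [IsManifold (𝓡 n) ∞ Y]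
    (f : X → Y) (x : X) (hf : ∀ᶠ y in 𝓝 x, ContMDiffAt (𝓡 n) (𝓡 n) ∞ f y)
    (p : E n → X) (hp1 : LD n p 0) (hp2 : p 0 = x) (B : Y → E n) (hψ : LD n B (f x)) :
    (∀ᶠ z in 𝓝 (0 : E n), ContDiffAt ℝ ∞ (fun z => B (f (p z))) z) ∧
    HasFDerivAt (fun z => B (f (p z)))
      ((mfderiv (𝓡 n) (𝓡 n) B (f x) : E n →L[ℝ] E n) ∘L
        ((mfderiv (𝓡 n) (𝓡 n) f x : E n →L[ℝ] E n) ∘L
          (mfderiv (𝓡 n) (𝓡 n) p 0 : E n →L[ℝ] E n))) 0 := by
  have hfx : ContMDiffAt (𝓡 n) (𝓡 n) ∞ f x := hf.self_of_nhds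
  have hce : ∀ᶠ z in 𝓝 (0 : E n), ContDiffAt ℝ ∞ (fun z => B (f (p z))) z := by
    have h1 : ∀ᶠ z in 𝓝 (0 : E n), LD n p z := hp1.eventually
    have h2 : ∀ᶠ y in 𝓝 (f (p 0)), LD n B y := by
      rw [hp2]; exact hψ.eventually
    have h3 : ContinuousAt (fun z => f (p z)) 0 := by
      have : ContinuousAt f (p 0) := by rw [hp2]; exact hfx.continuousAt
      exact ContinuousAt.comp this hp1.continuousAt
    have h4 : ∀ᶠ z in 𝓝 (0 : E n), ContMDiffAt (𝓡 n) (𝓡 n) ∞ f (p z) := by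
      refine hp1.continuousAt.eventually ?_
      rw [hp2]
      exact hf
    filter_upwards [h1, h3.tendsto.eventually h2, h4] with z hz1 hz2 hz3
    exact contMDiffAt_iff_contDiffAt.1 (hz2.contMDiffAt.comp z (hz3.comp z hz1.contMDiffAt))
  refine ⟨hce, ?_⟩
  let Dp : E n →L[ℝ] E n := mfderiv (𝓡 n) (𝓡 n) p 0
  let Df : E n →L[ℝ] E n := mfderiv (𝓡 n) (𝓡 n) f x
  let Dψ : E n →L[ℝ] E n := mfderiv (𝓡 n) (𝓡 n) B (f x)
  have d1 : HasMFDerivAt (𝓡 n) (𝓡 n) p 0 Dp := hp1.mdifferentiableAt.hasMFDerivAt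
  have d2 : HasMFDerivAt (𝓡 n) (𝓡 n) f (p 0) Df := by
    rw [hp2]
    exact (hfx.mdifferentiableAt (by simp)).hasMFDerivAt
  have d3 : HasMFDerivAt (𝓡 n) (𝓡 n) B (f (p 0)) Dψ := by
    rw [hp2]
    exact hψ.mdifferentiableAt.hasMFDerivAt
  have d4 : HasMFDerivAt (𝓡 n) (𝓡 n) (fun z => f (p z)) 0 (Df ∘L Dp) :=
    HasMFDerivAt.comp (g := f) (f := p) 0 d2 d1
  have d5 : HasMFDerivAt (𝓡 n) (𝓡 n) (fun z => B (f (p z))) 0 (Dψ ∘L (Df ∘L Dp)) :=
    HasMFDerivAt.comp (g := B) (f := fun z => f (p z)) 0 d3 d4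
  exact hasMFDerivAt_iff_hasFDerivAt.1 d5

/-- the inverse function theorem at a point near which the map is smooth -/
theorem LD_of_injective_at (n : ℕ) {X Y : Type} [TopologicalSpace X] [ChartedSpace (E n) X]
    [IsManifold (𝓡 n) ∞ X] [TopologicalSpace Y] [ChartedSpace (E n) Y] [IsManifold (𝓡 n) ∞ Y]
    (f : X → Y) (x : X) (hf : ∀ᶠ y in 𝓝 x, ContMDiffAt (𝓡 n) (𝓡 n) ∞ f y)
    (h : Injective (mfderiv (𝓡 n) (𝓡 n) f x)) : LD n f x := by
  have hφ : LD n (fun y : X => chartAt (E n) x y - chartAt (E n) x x) x := by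
    have h1 : LD n (chartAt (E n) x : X → E n) x := Pool.Agent.Y641.SH.LD_chart x
    have h2 : LD n (fun z : E n => z - chartAt (E n) x x) (chartAt (E n) x x) := by
      refine LD_of_contDiffAt (Eventually.of_forall fun z => ?_)
        (ContinuousLinearEquiv.refl ℝ (E n)) ?_
      · exact contDiffAt_id.sub contDiffAt_const
      · exact (hasFDerivAt_id _).sub_const _
    exact LD.comp_fun (g := fun z : E n => z - chartAt (E n) x x) h2 h1
  have hψ : LD n (chartAt (E n) (f x) : Y → E n) (f x) := Pool.Agent.Y641.SH.LD_chart (f x)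
  obtain ⟨p, hp1, hp2, hp3, hp4⟩ := hφ.exists_inverse
  simp only [sub_self] at hp1 hp2 hp4
  obtain ⟨q, hq1, hq2, hq3, hq4⟩ := hψ.exists_inverse
  obtain ⟨hce, d6⟩ := in_charts n f x hf p hp1 hp2 _ hψ
  have hg : LD n (fun z => chartAt (E n) (f x) (f (p z))) 0 := by
    have hinj : Injective ((mfderiv (𝓡 n) (𝓡 n) (chartAt (E n) (f x) : Y → E n) (f x) :
        E n →L[ℝ] E n) ∘L ((mfderiv (𝓡 n) (𝓡 n) f x : E n →L[ℝ] E n) ∘L
          (mfderiv (𝓡 n) (𝓡 n) p 0 : E n →L[ℝ] E n))) :=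
      hψ.mfderiv_injective.comp (h.comp hp1.mfderiv_injective)
    let B : E n ≃ₗ[ℝ] E n := LinearEquiv.ofInjectiveEndo _ hinj
    refine LD_of_contDiffAt hce B.toContinuousLinearEquiv ?_
    have hB : ((B.toContinuousLinearEquiv : E n ≃L[ℝ] E n) : E n →L[ℝ] E n) =
        ((mfderiv (𝓡 n) (𝓡 n) (chartAt (E n) (f x) : Y → E n) (f x) :
        E n →L[ℝ] E n) ∘L ((mfderiv (𝓡 n) (𝓡 n) f x : E n →L[ℝ] E n) ∘L
          (mfderiv (𝓡 n) (𝓡 n) p 0 : E n →L[ℝ] E n))) := by
      ext1 v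
      rfl
    rw [hB]
    exact d6
  have h5 : LD n (fun y => (fun z => chartAt (E n) (f x) (f (p z)))
      (chartAt (E n) x y - chartAt (E n) x x)) x :=
    LD.comp_fun (g := fun z => chartAt (E n) (f x) (f (p z)))
      (f := fun y => chartAt (E n) x y - chartAt (E n) x x) (by simpa using hg) hφ
  have h6 : LD n q ((fun z => chartAt (E n) (f x) (f (p z)))
      (chartAt (E n) x x - chartAt (E n) x x)) := by
    have : (fun z => chartAt (E n) (f x) (f (p z))) (chartAt (E n) x x - chartAt (E n) x x) =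
        chartAt (E n) (f x) (f x) := by
      show chartAt (E n) (f x) (f (p (chartAt (E n) x x - chartAt (E n) x x))) = _
      rw [sub_self, hp2]
    rw [this]
    exact hq1
  have h7 : LD n (fun y => q ((fun z => chartAt (E n) (f x) (f (p z)))
      (chartAt (E n) x y - chartAt (E n) x x))) x :=
    LD.comp_fun (g := q) (f := fun y => (fun z => chartAt (E n) (f x) (f (p z)))
      (chartAt (E n) x y - chartAt (E n) x x)) h6 h5
  refine h7.congr ?_
  have h8 : ∀ᶠ y in 𝓝 x, q (chartAt (E n) (f x) (f y)) = f y :=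
    hf.self_of_nhds.continuousAt.eventually hq3
  filter_upwards [hp3, h8] with y hy1 hy2
  show f y = q (chartAt (E n) (f x) (f (p (chartAt (E n) x y - chartAt (E n) x x))))
  rw [hy1, hy2]

/-- At a cone monotone point near which the map is smooth of nonzero derivative, it is a local
diffeomorphism. -/
theorem LD_of_CMon (n : ℕ) {X Y : Type} [TopologicalSpace X] [ChartedSpace (E n) X]
    [IsManifold (𝓡 n) ∞ X] [TopologicalSpace Y] [ChartedSpace (E n) Y] [IsManifold (𝓡 n) ∞ Y]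
    (f : X → Y) (x : X) (hf : ∀ᶠ y in 𝓝 x, ContMDiffAt (𝓡 n) (𝓡 n) ∞ f y)
    (hr : 1 ≤ Module.finrank ℝ (LinearMap.range (mfderiv (𝓡 n) (𝓡 n) f x).toLinearMap))
    (h : CMon n f x) : LD n f x := by
  obtain ⟨B, hB, A, hA0, hAd, hm⟩ := h
  obtain ⟨hce, d6⟩ := in_charts n f x hf A hAd hA0 B hB
  set Dp : E n →L[ℝ] E n := (mfderiv (𝓡 n) (𝓡 n) A 0 : E n →L[ℝ] E n) with hDp
  set Df : E n →L[ℝ] E n := (mfderiv (𝓡 n) (𝓡 n) f x : E n →L[ℝ] E n) with hDf
  set Dψ : E n →L[ℝ] E n := (mfderiv (𝓡 n) (𝓡 n) B (f x) : E n →L[ℝ] E n) with hDψ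
  set G' : E n →L[ℝ] E n := Dψ ∘L (Df ∘L Dp) with hG'
  refine LD_of_injective_at n f x hf ?_
  have i1 : Injective Dψ := hB.mfderiv_injective
  have i2 : Injective Dp := hAd.mfderiv_injective
  have i3 : Surjective Dp :=
    (LinearMap.injective_iff_surjective (f := Dp.toLinearMap)).1 i2
  -- a vector which is not in the kernel
  obtain ⟨w, hw⟩ : ∃ w, G' w ≠ 0 := by
    by_contra hcon
    push Not at hcon
    have h0 : LinearMap.range Df.toLinearMap = ⊥ := by
      rw [LinearMap.range_eq_bot]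
      ext1 v
      obtain ⟨u, rfl⟩ := i3 v
      have := hcon u
      exact i1 (by
        show Dψ (Df (Dp u)) = Dψ 0
        rw [map_zero]
        exact this)
    have h1 : 1 ≤ Module.finrank ℝ (LinearMap.range Df.toLinearMap) := hr
    rw [h0, finrank_bot] at h1
    omega
  have hinj : Injective G' := by
    rw [injective_iff_map_eq_zero]
    intro v hv
    by_contra hv0
    obtain ⟨r, ℓ, hr0, hℓ⟩ := hm v hv0
    -- the inequality for the derivative
    have key : ∀ s : ℝ, ‖s • w‖ ≤ r → r * ‖G' (v + s • w)‖ ≤ ℓ (G' (v + s • w)) := by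
      intro s hs
      have hd : HasDerivAt (fun t : ℝ => B (f (A (t • (v + s • w))))) (G' (v + s • w)) 0 := by
        have h1 : HasDerivAt (fun t : ℝ => t • (v + s • w)) (v + s • w) 0 := by
          simpa using (hasDerivAt_id (0 : ℝ)).smul_const (v + s • w)
        have h2 : HasFDerivAt (fun z => B (f (A z))) G' ((0 : ℝ) • (v + s • w)) := by
          rw [zero_smul]
          exact d6
        exact h2.comp_hasDerivAt (0 : ℝ) h1
      have hlim : Tendsto (fun t : ℝ => t⁻¹ • (B (f (A (t • (v + s • w)))) - B (f (A 0))))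
          (𝓝[>] 0) (𝓝 (G' (v + s • w))) := by
        have h1 := hd.tendsto_slope_zero_right
        simpa using h1
      have h1 : Tendsto (fun t : ℝ => r * ‖t⁻¹ • (B (f (A (t • (v + s • w)))) - B (f (A 0)))‖)
          (𝓝[>] 0) (𝓝 (r * ‖G' (v + s • w)‖)) := hlim.norm.const_mul r
      have h2 : Tendsto (fun t : ℝ => ℓ (t⁻¹ • (B (f (A (t • (v + s • w)))) - B (f (A 0)))))
          (𝓝[>] 0) (𝓝 (ℓ (G' (v + s • w)))) := (ℓ.continuous.tendsto _).comp hlim
      refine le_of_tendsto_of_tendsto h1 h2 ?_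
      have h3 : ∀ᶠ t : ℝ in 𝓝[>] 0, ‖t • (v + s • w)‖ ≤ r := by
        have h4 : Tendsto (fun t : ℝ => ‖t • (v + s • w)‖) (𝓝[>] 0) (𝓝 0) := by
          have h5 : Continuous (fun t : ℝ => ‖t • (v + s • w)‖) := by fun_prop
          have h6 := h5.tendsto 0
          simp only [zero_smul, norm_zero] at h6
          exact h6.mono_left nhdsWithin_le_nhds
        exact (h4.eventually (gt_mem_nhds hr0)).mono fun t ht => ht.le
      filter_upwards [h3, self_mem_nhdsWithin] with t ht1 ht2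
      have ht0 : (0 : ℝ) < t := ht2
      have h4 := hℓ 0 (t • (v + s • w)) (by rw [norm_zero]; exact hr0.le) ht1 t ht0 (by
        have : t • (v + s • w) - 0 - t • v = t • (s • w) := by
          rw [smul_add, sub_zero]; abel
        rw [this, norm_smul, Real.norm_eq_abs, abs_of_pos ht0, mul_comm]
        exact mul_le_mul_of_nonneg_right hs ht0.le)
      rw [norm_smul, map_smul, smul_eq_mul, Real.norm_eq_abs, abs_of_pos (inv_pos.2 ht0)]
      have h5 := mul_le_mul_of_nonneg_left h4.le (inv_pos.2 ht0).le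
      calc r * (t⁻¹ * ‖B (f (A (t • (v + s • w)))) - B (f (A 0))‖)
          = t⁻¹ * (r * ‖B (f (A (t • (v + s • w)))) - B (f (A 0))‖) := by ring
        _ ≤ _ := h5
    obtain ⟨s, hs0, hs1⟩ : ∃ s : ℝ, 0 < s ∧ ‖s • w‖ ≤ r := by
      have h0 : (0 : ℝ) < ‖w‖ + 1 := by positivity
      refine ⟨r / (‖w‖ + 1), by positivity, ?_⟩
      rw [norm_smul, Real.norm_eq_abs, abs_of_pos (by positivity), div_mul_eq_mul_div,
        div_le_iff₀ h0]
      nlinarith [norm_nonneg w]
    have k1 := key s hs1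
    have k2 := key (-s) (by rw [neg_smul, norm_neg]; exact hs1)
    rw [map_add, hv, zero_add, map_smul, map_smul, norm_smul, Real.norm_eq_abs] at k1 k2
    rw [abs_neg, abs_of_pos hs0] at k2
    rw [abs_of_pos hs0] at k1
    have hw0 : 0 < ‖G' w‖ := norm_pos_iff.2 hw
    have h9 : 0 < r * (s * ‖G' w‖) := by positivity
    have h10 : s • ℓ (G' w) + (-s) • ℓ (G' w) = 0 := by
      rw [smul_eq_mul, smul_eq_mul]; ring
    linarith
  have h3 : Injective Df := by
    intro a b hab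
    obtain ⟨a', rfl⟩ := i3 a
    obtain ⟨b', rfl⟩ := i3 b
    have : a' = b' := hinj (by
      show Dψ (Df (Dp a')) = Dψ (Df (Dp b'))
      rw [hab])
    rw [this]
  exact h3

end Pool.Agent.Q130.CM
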