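import Pool.Agent.Y522.Basic
import Pool.Agent.Helper514.IoD

/-!
# Invariance of domain for maps of manifolds, and homeomorphisms equal off a compact set
-/

set_option autoImplicit false

open Set Filter Topology Metric Function
open scoped Manifold ContDiff

noncomputable section

namespace Pool.Agent.Q130.CM

open Pool.Agent.Y522

theorem isOpenMap_of_injective (n : ℕ) {X Y : Type} [TopologicalSpace X] [ChartedSpace (E n) X]
    [TopologicalSpace Y] [ChartedSpace (E n) Y] (f : X → Y) (hc : Continuous f) (hi : Injective f) :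
    IsOpenMap f := by
  rw [isOpenMap_iff_nhds_le]
  intro x
  rw [Filter.le_map_iff]
  intro s hs
  set φ := chartAt (E n) x with hφ
  set e := chartAt (E n) (f x) with he
  have hx : x ∈ φ.source := mem_chart_source _ _
  have hfx : f x ∈ e.source := mem_chart_source _ _
  have hφx : φ x ∈ φ.target := φ.map_source hx
  have hcs : ContinuousAt φ.symm (φ x) := φ.continuousAt_symm hφx
  have h1 : φ.symm ⁻¹' (s ∩ f ⁻¹' e.source) ∈ 𝓝 (φ x) := by
    refine hcs.preimage_mem_nhds ?_
    rw [φ.left_inv hx]
    exact inter_mem hs (hc.continuousAt.preimage_mem_nhds (e.open_source.mem_nhds hfx))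
  obtain ⟨r, hr, hball⟩ := nhds_basis_closedBall.mem_iff.1
    (inter_mem (φ.open_target.mem_nhds hφx) h1)
  have hio := Pool.Agent.Helper514.IoD.image_mem_nhds
    (fun z => e (f (φ.symm z))) (φ x) r hr
    (by
      refine e.continuousOn.comp (hc.comp_continuousOn (φ.continuousOn_symm.mono
        fun z hz => (hball hz).1)) fun z hz => (hball hz).2.2)
    (by
      intro a ha b hb hab
      have h2 : f (φ.symm a) = f (φ.symm b) := e.injOn (hball ha).2.2 (hball hb).2.2 hab
      exact φ.symm.injOn (hball ha).1 (hball hb).1 (hi h2))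
  simp only [φ.left_inv hx] at hio
  have h3 : e.source ∩ e ⁻¹' ((fun z => e (f (φ.symm z))) '' closedBall (φ x) r) ∈ 𝓝 (f x) :=
    inter_mem (e.open_source.mem_nhds hfx) ((e.continuousAt hfx).preimage_mem_nhds hio)
  refine mem_of_superset h3 ?_
  rintro y ⟨hy1, z, hz, hzy⟩
  refine ⟨φ.symm z, (hball hz).2.1, ?_⟩
  exact e.injOn (hball hz).2.2 hy1 hzy

/-- A continuous injective map which is equal to a homeomorphism off a compact set and does not
leave the components is a homeomorphism. -/
theorem homeo_of_off (n : ℕ) {X Y : Type} [TopologicalSpace X] [ChartedSpace (E n) X]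
    [TopologicalSpace Y] [ChartedSpace (E n) Y] [T2Space Y] (f : X ≃ₜ Y) (f' : X → Y) (hc : Continuous f')
    (hi : Injective f')
    (C : Set X) (hC : IsCompact C) (hoff : ∀ x, x ∉ C → f' x = f x)
    (hcomp : ∀ x, f x ∈ connectedComponent (f' x)) :
    ∃ g : X ≃ₜ Y, ∀ x, g x = f' x := by
  have ho : IsOpenMap f' := isOpenMap_of_injective n f' hc hi
  have hcl : IsClosed (range f') := by
    have h1 : range f' = f' '' C ∪ f '' closure Cᶜ := by
      ext y
      constructor
      · rintro ⟨x, rfl⟩
        by_cases hx : x ∈ C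
        · exact Or.inl ⟨x, hx, rfl⟩
        · exact Or.inr ⟨x, subset_closure hx, (hoff x hx).symm⟩
      · rintro (⟨x, -, rfl⟩ | ⟨x, hx, rfl⟩)
        · exact mem_range_self x
        · have h2 : closure Cᶜ ⊆ {x | f' x = f x} :=
            closure_minimal (fun x hx => hoff x hx) (isClosed_eq hc f.continuous)
          exact ⟨x, h2 hx⟩
    rw [h1]
    exact (hC.image hc).isClosed.union (f.isClosedMap _ isClosed_closure)
  have hs : Surjective f' := by
    intro y
    have h1 := hcomp (f.symm y)
    rw [f.apply_symm_apply] at h1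
    have h2 : IsClopen (range f') := ⟨hcl, ho.isOpen_range⟩
    exact h2.connectedComponent_subset (mem_range_self (f.symm y)) h1
  exact ⟨(Equiv.ofBijective f' ⟨hi, hs⟩).toHomeomorphOfContinuousOpen hc ho, fun x => rfl⟩

end Pool.Agent.Q130.CM
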