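import Pool.Agent.Q130.CM.Step

/-!
# Cone monotone maps: smoothing near a compact set
-/

set_option autoImplicit false

open Set Filter Topology Metric Function MeasureTheory
open scoped Manifold ContDiff

noncomputable section

namespace Pool.Agent.Q130.CM

open Pool.Agent.Y522 Pool.Agent.Y66.CM

theorem CBox.injOn {n : ℕ} {X : Type} {F : X → E n} {A : E n → X} {ρ κ : ℝ} (hκ : 0 < κ)
    (h : CBox n F A ρ κ) : InjOn F (A '' closedBall 0 ρ) := by
  rintro _ ⟨p, hp, rfl⟩ _ ⟨q, hq, rfl⟩ hpq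
  rw [mem_closedBall_zero_iff] at hp hq
  by_contra hne
  have hpq' : p ≠ q := fun h' => hne (by rw [h'])
  have hn : 0 < ‖q - p‖ := norm_pos_iff.2 (sub_ne_zero.2 hpq'.symm)
  obtain ⟨c, ℓ, hc, hℓ⟩ := h (‖q - p‖⁻¹ • (q - p)) (by
    rw [norm_smul, norm_inv, norm_norm, inv_mul_cancel₀ hn.ne'])
  have h1 := hℓ p q hp hq ‖q - p‖ hn (by
    rw [smul_smul, mul_inv_cancel₀ hn.ne', one_smul, sub_self, norm_zero]
    positivity)
  rw [hpq, sub_self, norm_zero, mul_zero, map_zero] at h1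
  exact lt_irrefl _ h1

theorem phase (n : ℕ) (X : Type) [TopologicalSpace X] [T2Space X] [ChartedSpace (E n) X]
    [IsManifold (𝓡 n) ∞ X] (F : X → E n) (W : Set X) (K : Set X)
    (hW : IsOpen W) (hF : ContinuousOn F W) (hx : ∀ x ∈ W, LD n F x ∨ CMonE n F x)
    (hK : IsCompact K) (hKW : K ⊆ W) :
    ∃ (N : ℕ) (B : Fin N → E n → X), (∀ j, InjOn (B j) (closedBall 0 2)) ∧
      (∀ j, ∀ z ∈ closedBall 0 2, LD n (B j) z) ∧ (∀ j, ∀ z ∈ closedBall 0 2, B j z ∈ W) ∧
      ∀ e : ℝ, 0 < e → ∃ F' : X → E n, ContinuousOn F' W ∧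
        (∀ p, (∀ j, p ∉ B j '' closedBall 0 1) → F' p = F p) ∧ (∀ p, ‖F' p - F p‖ ≤ e) ∧
        (∀ x, LD n F x → LD n F' x) ∧ (∀ x ∈ K, LD n F' x) ∧
        (∀ x ∈ W, LD n F' x ∨ CMonE n F' x) ∧ ∀ j, InjOn F' (B j '' closedBall 0 (3 / 2)) := by
  classical
  have hLo : IsOpen {x | LD n F x} := by
    rw [isOpen_iff_mem_nhds]
    intro x hx
    exact LD.eventually hx
  have hKb : IsCompact (K ∩ {x | LD n F x}ᶜ) := hK.inter_right hLo.isClosed_compl
  have h1 : ∀ x, x ∈ K ∩ {x | LD n F x}ᶜ → ∃ (B : E n → X) (κ : ℝ), 0 < κ ∧ B 0 = x ∧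
      InjOn B (closedBall 0 2) ∧ (∀ z ∈ closedBall 0 2, LD n B z) ∧
      (∀ z ∈ closedBall 0 2, B z ∈ W) ∧ CBox n F B 2 κ := by
    intro x hxK
    refine cbox_exists hW (hKW hxK.1) ?_
    rcases hx x (hKW hxK.1) with h | h
    · exact absurd h hxK.2
    · exact h
  choose! B κ hκ hB0 hBi hBd hBW hBm using h1
  have hU : ∀ x (_ : x ∈ K ∩ {x | LD n F x}ᶜ), B x '' ball 0 (1 / 2) ∈ 𝓝 x := by
    intro x hx
    have h2 : LD n (B x) 0 := hBd x hx 0 (by simp)
    have h3 := h2.image_mem_nhds (ball_mem_nhds (0 : E n) (by norm_num : (0 : ℝ) < 1 / 2))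
    rwa [hB0 x hx] at h3
  obtain ⟨t, ht⟩ := hKb.elim_nhds_subcover' (fun x _ => B x '' ball 0 (1 / 2)) hU
  set N := t.card with hN
  set A : Fin N → E n → X := fun j => B ((t.equivFin.symm j).1 : X) with hA
  have hAK : ∀ j : Fin N, ((t.equivFin.symm j).1 : X) ∈ K ∩ {x | LD n F x}ᶜ := fun j =>
    (t.equivFin.symm j).1.2
  obtain ⟨κ₀, hκ0, hκ1⟩ := Pool.Agent.Y73.SH.exists_lower
    (fun j : Fin N => κ ((t.equivFin.symm j).1 : X)) (fun j => hκ _ (hAK j))
  have hAi : ∀ j, InjOn (A j) (closedBall 0 2) := fun j => hBi _ (hAK j)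
  have hAd : ∀ j, ∀ z ∈ closedBall (0 : E n) 2, LD n (A j) z := fun j => hBd _ (hAK j)
  have hAW : ∀ j, ∀ z ∈ closedBall (0 : E n) 2, A j z ∈ W := fun j => hBW _ (hAK j)
  have hcov : ∀ x ∈ K, ¬ LD n F x → ∃ j z, ‖z‖ ≤ 1 / 2 ∧ A j z = x := by
    intro x hxK hx
    have h2 := ht (show x ∈ K ∩ {x | LD n F x}ᶜ from ⟨hxK, hx⟩)
    rw [mem_iUnion₂] at h2
    obtain ⟨y, hy, z, hz, hzx⟩ := h2
    refine ⟨t.equivFin ⟨y, hy⟩, z, ?_, ?_⟩
    · rw [mem_ball_zero_iff] at hz
      exact hz.le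
    · simp only [hA, Equiv.symm_apply_apply]
      exact hzx
  have hcl : ∀ j, IsClosed (A j '' closedBall (0 : E n) 1) := by
    intro j
    apply IsCompact.isClosed
    apply (isCompact_closedBall (0 : E n) 1).image_of_continuousOn
    intro z hz
    exact (hAd j z (closedBall_subset_closedBall (by norm_num) hz)).continuousAt.continuousWithinAt
  refine ⟨N, A, hAi, hAd, hAW, fun e he => ?_⟩
  -- the induction
  have hN1 : (0 : ℝ) < N + 1 := by positivity
  have key : ∀ i : ℕ, i ≤ N → ∃ F' : X → E n, ContinuousOn F' W ∧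
      (∀ p, (∀ j, p ∉ A j '' closedBall 0 1) → F' p = F p) ∧
      (∀ p, ‖F' p - F p‖ ≤ i * (e / (N + 1))) ∧ (∀ p, LD n F p → LD n F' p) ∧
      (∀ j : Fin N, (j : ℕ) < i → ∀ z, ‖z‖ ≤ 1 / 2 → LD n F' (A j z)) ∧
      ∀ j, CBox n F' (A j) (2 - i / (2 * N)) (κ₀ * (1 - i / (2 * N))) := by
    intro i
    induction i with
    | zero =>
      intro _
      refine ⟨F, hF, fun _ _ => rfl, fun _ => by simp, fun _ h => h,
        fun j hj => absurd hj (by omega), fun j => ?_⟩
      refine CBox.mono (hBm _ (hAK j)) (by simp) ?_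
      have := hκ1 j
      simpa using this
    | succ i ih =>
      intro hi
      obtain ⟨F', h2, h4, h3, h5, h6, h7⟩ := ih (by omega)
      have hN0 : (0 : ℝ) < N := by exact_mod_cast (by omega : 0 < N)
      have hiN : ((i : ℝ) + 1) ≤ N := by exact_mod_cast hi
      have hi0 : (0 : ℝ) ≤ i := by positivity
      have e1 : ((i : ℝ) + 1) / (2 * N) ≤ 1 / 2 := by
        rw [div_le_iff₀ (by positivity)]
        linarith
      have e2 : (i : ℝ) / (2 * N) < ((i : ℝ) + 1) / (2 * N) := by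
        apply div_lt_div_of_pos_right _ (by positivity)
        linarith
      have e3 : 0 ≤ (i : ℝ) / (2 * N) := by positivity
      obtain ⟨F'', g1, g2, g3, g4, g5, g6⟩ := stCStep n X F' W N A ⟨i, by omega⟩
        (2 - i / (2 * N)) (2 - ((i : ℝ) + 1) / (2 * N)) (κ₀ * (1 - i / (2 * N)))
        (κ₀ * (1 - ((i : ℝ) + 1) / (2 * N))) (e / (N + 1)) hW h2 hAi hAd hAW (by linarith)
        (by linarith) (by linarith)
        (mul_pos hκ0 (by linarith)) (mul_lt_mul_of_pos_left (by linarith) hκ0) (by positivity)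
        (h7 _).mbox
      refine ⟨F'', g1, ?_, ?_, fun p hp => g4 p (h5 p hp), ?_, ?_⟩
      · intro p hp
        rw [g2 p (hp _), h4 p hp]
      · intro p
        have h8 : F'' p - F p = (F'' p - F' p) + (F' p - F p) := by abel
        rw [h8]
        refine (norm_add_le _ _).trans ?_
        have := g3 p
        have := h3 p
        push_cast
        linarith
      · intro j hj z hz
        rcases Nat.lt_succ_iff_lt_or_eq.1 hj with h8 | h8
        · exact g4 _ (h6 j h8 z hz)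
        · have h9 : j = ⟨i, by omega⟩ := Fin.ext h8
          rw [h9]
          exact g5 z hz
      · push_cast
        intro j u hu
        obtain ⟨c, ℓ, hc, hℓ⟩ := h7 j u hu
        exact ⟨c, ℓ, hc, CDir_of_dir hc.le fun m hm => g6 j u (ℓ - m) hu (hℓ.dir hm)⟩
  obtain ⟨F', h2, h4, h3, h5, h6, h7⟩ := key N le_rfl
  have hbox : ∀ j : Fin N, CBox n F' (A j) (3 / 2) (κ₀ / 2) := by
    intro j
    have hN0 : (0 : ℝ) < N := by
      have : 0 < N := lt_of_le_of_lt (Nat.zero_le _) j.2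
      exact_mod_cast this
    have e1 : (N : ℝ) / (2 * N) = 1 / 2 := by
      field_simp
    have h8 := h7 j
    rw [e1] at h8
    refine h8.mono (by norm_num) ?_
    linarith
  refine ⟨F', h2, h4, fun p => ?_, h5, fun x hxK => ?_, fun x hxW => ?_, fun j => ?_⟩
  · refine (h3 p).trans ?_
    calc (N : ℝ) * (e / (N + 1)) ≤ (N + 1) * (e / (N + 1)) := by
          apply mul_le_mul_of_nonneg_right (by linarith)
          positivity
      _ = e := by field_simp
  · by_cases h : LD n F x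
    · exact h5 x h
    · obtain ⟨j, z, hz, rfl⟩ := hcov x hxK h
      exact h6 j j.2 z hz
  · by_cases h : ∃ j, x ∈ A j '' closedBall 0 1
    · obtain ⟨j, z, hz, rfl⟩ := h
      rw [mem_closedBall_zero_iff] at hz
      right
      exact CMonE_of_CBox (by linarith) (hbox j) hz
        (hAd j z (by rw [mem_closedBall_zero_iff]; linarith))
    · push Not at h
      have hev : F' =ᶠ[𝓝 x] F := by
        have h8 : IsClosed (⋃ j, A j '' closedBall (0 : E n) 1) := isClosed_iUnion_of_finite hcl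
        filter_upwards [h8.isOpen_compl.mem_nhds (fun h9 => by
          obtain ⟨j, hj⟩ := mem_iUnion.1 h9
          exact h j hj)] with y hy
        exact h4 y fun j hj => hy (mem_iUnion.2 ⟨j, hj⟩)
      rcases hx x hxW with h8 | h8
      · exact Or.inl (h5 x h8)
      · exact Or.inr (CMonE.congr h8 hev)
  · exact CBox.injOn (by linarith) (hbox j)

end Pool.Agent.Q130.CM
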