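import Pool.Agent.Q130.CM.Phase
import Pool.Agent.Q130.CM.Open

/-!
# Cone monotone homeomorphisms: one stage
-/

set_option autoImplicit false

open Set Filter Topology Metric Function MeasureTheory
open scoped Manifold ContDiff

noncomputable section

namespace Pool.Agent.Q130.CM

open Pool.Agent.Y522 Pool.Agent.Y66.CM

/-- a compact subset of an open set of the Euclidean space has a margin -/
theorem exists_margin {n : ℕ} {X : Type} [TopologicalSpace X] (F : X → E n) (K : Set X)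
    (hK : IsCompact K) (hF : ContinuousOn F K) (U : Set (E n)) (hU : IsOpen U)
    (hKU : ∀ x ∈ K, F x ∈ U) : ∃ e : ℝ, 0 < e ∧ ∀ x ∈ K, ∀ w : E n, ‖w - F x‖ ≤ 2 * e → w ∈ U := by
  obtain ⟨δ, hδ, h⟩ := (hK.image_of_continuousOn hF).exists_cthickening_subset_open hU (by
    rintro _ ⟨x, hx, rfl⟩
    exact hKU x hx)
  refine ⟨δ / 2, by linarith, fun x hx w hw => h ?_⟩
  refine Metric.mem_cthickening_of_dist_le w (F x) δ _ ⟨x, hx, rfl⟩ ?_
  rw [dist_eq_norm]
  linarith

theorem stageH (n : ℕ) (X Y : Type) [TopologicalSpace X] [T2Space X] [ChartedSpace (E n) X]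
    [IsManifold (𝓡 n) ∞ X] [TopologicalSpace Y] [T2Space Y] [ChartedSpace (E n) Y]
    [IsManifold (𝓡 n) ∞ Y] (f : X ≃ₜ Y) (hx : ∀ x, LD n f x ∨ CMon n f x)
    (D W : Set X) (hD : IsCompact D) (hW : IsOpen W) (hDW : D ⊆ W) (V : Set Y) (hV : IsOpen V)
    (B : Y → E n) (hBi : InjOn B V) (hBd : ∀ y ∈ V, LD n B y) (hWV : ∀ x ∈ W, f x ∈ V)
    (O : Set (X × Y)) (hO : IsOpen O) (hfO : ∀ x, (x, f x) ∈ O) :
    ∃ f' : X ≃ₜ Y, (∀ x, LD n f' x ∨ CMon n f' x) ∧ (∀ x, (x, f' x) ∈ O) ∧
      (∀ x, LD n f x → LD n f' x) ∧ (∀ x ∈ D, LD n f' x) ∧ ∀ x, x ∉ W → f' x = f x := by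
  classical
  obtain ⟨F, hFd⟩ : ∃ F : X → E n, F = fun x => B (f x) := ⟨_, rfl⟩
  have hFx : ∀ x, F x = B (f x) := fun x => by rw [hFd]
  have hFca : ∀ x ∈ W, ContinuousAt F x := by
    intro x hxW
    rw [hFd]
    exact ContinuousAt.comp (hBd _ (hWV x hxW)).continuousAt f.continuous.continuousAt
  have hFi : InjOn F W := by
    intro x hx y hy hxy
    rw [hFx, hFx] at hxy
    exact f.injective (hBi (hWV x hx) (hWV y hy) hxy)
  -- `F` is open on `W`
  have hFo : ∀ S : Set X, IsOpen S → S ⊆ W → IsOpen (F '' S) := by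
    intro S hS hSW
    have h1 : IsOpen (f '' S) := f.isOpenMap S hS
    have h2 : F '' S = B '' (f '' S) := by
      rw [image_image, hFd]
    rw [h2]
    refine isOpen_image_of_LD (n := n) h1 ?_
    rintro _ ⟨x, hx, rfl⟩
    exact hBd _ (hWV x (hSW hx))
  rcases isEmpty_or_nonempty Y with hY | hY
  · have hX : IsEmpty X := ⟨fun x => hY.elim (f x)⟩
    exact ⟨f, hx, hfO, fun _ h => h, fun x => hX.elim x, fun x => hX.elim x⟩
  obtain ⟨β, hβd⟩ : ∃ β : E n → Y, β = invFunOn B V := ⟨_, rfl⟩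
  have hβ : ∀ y ∈ V, β (B y) = y := by
    intro y hy
    rw [hβd]
    exact hBi.leftInvOn_invFunOn hy
  have hβL : ∀ y ∈ V, LD n β (B y) := fun y hy => LD.inverse hV hBd hβ hy
  obtain ⟨N, A, hAi, hAd, hAW, hPh⟩ := phase n X F W D hW
    (fun x hxW => (hFca x hxW).continuousWithinAt)
    (by
      intro x hxW
      rcases hx x with h1 | ⟨B1, hB1, h1⟩
      · left
        rw [hFd]
        exact LD.comp_fun (hBd _ (hWV x hxW)) h1
      · right
        rw [hFd]
        exact CMonE.change f.continuous.continuousAt hB1 (hBd _ (hWV x hxW)) h1)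
    hD hDW
  have hAc : ∀ j, IsCompact (A j '' closedBall (0 : E n) 1) := by
    intro j
    apply (isCompact_closedBall (0 : E n) 1).image_of_continuousOn
    intro z hz
    exact (hAd j z (closedBall_subset_closedBall (by norm_num) hz)).continuousAt.continuousWithinAt
  obtain ⟨C, hCd⟩ : ∃ C : Set X, C = ⋃ j, A j '' closedBall (0 : E n) 1 := ⟨_, rfl⟩
  have hC : IsCompact C := by
    rw [hCd]
    exact isCompact_iUnion hAc
  have hCW : C ⊆ W := by
    rw [hCd]
    refine iUnion_subset fun j => ?_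
    rintro _ ⟨z, hz, rfl⟩
    exact hAW j z (closedBall_subset_closedBall (by norm_num) hz)
  -- first margin: boxes
  have hm1 : ∀ j, ∃ e : ℝ, 0 < e ∧ ∀ x ∈ A j '' closedBall (0 : E n) 1, ∀ w : E n,
      ‖w - F x‖ ≤ 2 * e → w ∈ F '' (A j '' ball (0 : E n) (3 / 2)) := by
    intro j
    have hsub : A j '' ball (0 : E n) (3 / 2) ⊆ W := by
      rintro _ ⟨z, hz, rfl⟩
      refine hAW j z ?_
      rw [mem_ball_zero_iff] at hz
      rw [mem_closedBall_zero_iff]
      linarith
    have hop : IsOpen (A j '' ball (0 : E n) (3 / 2)) := by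
      refine isOpen_image_of_LD (n := n) isOpen_ball fun z hz => hAd j z ?_
      rw [mem_ball_zero_iff] at hz
      rw [mem_closedBall_zero_iff]
      linarith
    refine exists_margin F _ (hAc j) ?_ _ (hFo _ hop hsub) ?_
    · rintro _ ⟨z, hz, rfl⟩
      exact (hFca _ (hAW j z
        (closedBall_subset_closedBall (by norm_num) hz))).continuousWithinAt
    · rintro _ ⟨z, hz, rfl⟩
      refine ⟨A j z, ⟨z, ?_, rfl⟩, rfl⟩
      rw [mem_closedBall_zero_iff] at hz
      rw [mem_ball_zero_iff]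
      linarith
  choose e1 he1 hm1 using hm1
  obtain ⟨e₁, he₁, he₁'⟩ := Pool.Agent.Y73.SH.exists_lower e1 he1
  -- second margin: the graph
  have hG : ∀ x ∈ C, ∀ᶠ q : X × E n in 𝓝 (x, F x), (q.1, β q.2) ∈ O := by
    intro x hxC
    have hxV := hWV x (hCW hxC)
    have h2 : ContinuousAt (fun q : X × E n => (q.1, β q.2)) (x, F x) := by
      refine ContinuousAt.prodMk continuousAt_fst ?_
      refine ContinuousAt.comp (g := β) ?_ continuousAt_snd
      change ContinuousAt β (F x)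
      rw [hFx]
      exact (hβL _ hxV).continuousAt
    have h3 : (x, β (F x)) ∈ O := by
      rw [hFx, hβ _ hxV]
      exact hfO x
    exact h2.eventually (hO.mem_nhds h3)
  have hmar : ∃ e : ℝ, 0 < e ∧ ∀ x ∈ C, ∀ w : E n, ‖w - F x‖ ≤ e → (x, β w) ∈ O := by
    refine hC.induction_on (p := fun s => ∃ e : ℝ, 0 < e ∧ ∀ x ∈ s, ∀ w : E n, ‖w - F x‖ ≤ e →
      (x, β w) ∈ O) ?_ ?_ ?_ ?_
    · exact ⟨1, one_pos, fun x hx => absurd hx (notMem_empty x)⟩
    · rintro s t hst ⟨e, he, h⟩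
      exact ⟨e, he, fun x hx => h x (hst hx)⟩
    · rintro s t ⟨e, he, h⟩ ⟨e', he', h'⟩
      refine ⟨min e e', lt_min he he', fun x hx w hw => ?_⟩
      rcases hx with hx | hx
      · exact h x hx w (hw.trans (min_le_left _ _))
      · exact h' x hx w (hw.trans (min_le_right _ _))
    · intro x hxC
      have h1 := hG x hxC
      rw [nhds_prod_eq] at h1
      obtain ⟨P1, hP1, P2, hP2, hP⟩ := eventually_prod_iff.1 h1
      obtain ⟨e, he, h2⟩ := Metric.eventually_nhds_iff_ball.1 hP2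
      have h3 : ∀ᶠ x' in 𝓝 x, P1 x' ∧ F x' ∈ ball (F x) (e / 2) :=
        hP1.and ((hFca x (hCW hxC)).eventually (ball_mem_nhds _ (by linarith)))
      refine ⟨{x' | P1 x' ∧ F x' ∈ ball (F x) (e / 2)}, mem_nhdsWithin_of_mem_nhds h3, e / 3,
        by linarith, ?_⟩
      rintro x' ⟨h4, h5⟩ w hw
      refine hP h4 (h2 w ?_)
      rw [mem_ball, dist_eq_norm] at h5 ⊢
      have h6 : w - F x = (w - F x') + (F x' - F x) := by abel
      rw [h6]
      refine (norm_add_le _ _).trans_lt ?_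
      linarith
  obtain ⟨e₂, he₂, hm2⟩ := hmar
  obtain ⟨e, he, hee1, hee2⟩ : ∃ e : ℝ, 0 < e ∧ e ≤ e₁ ∧ e ≤ e₂ :=
    ⟨min e₁ e₂, lt_min he₁ he₂, min_le_left _ _, min_le_right _ _⟩
  obtain ⟨F', hF'c, hF'C', hF'e, hF'L, hF'D, hF'm, hF'i⟩ := hPh e he
  have hF'C : ∀ p, p ∉ C → F' p = F p := by
    intro p hp
    refine hF'C' p fun j hj => hp ?_
    rw [hCd]
    exact mem_iUnion.2 ⟨j, hj⟩
  have hmB : ∀ j, ∀ x ∈ A j '' closedBall (0 : E n) 1, ∀ w : E n,
      ‖w - F x‖ ≤ 2 * e → w ∈ F '' (A j '' ball (0 : E n) (3 / 2)) := by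
    intro j x hxj w hw
    refine hm1 j x hxj w (hw.trans ?_)
    have := he₁' j
    linarith
  have hCj : ∀ x ∈ C, ∃ j, x ∈ A j '' closedBall (0 : E n) 1 := by
    intro x hxC
    rw [hCd] at hxC
    exact mem_iUnion.1 hxC
  have hball : ∀ j, A j '' ball (0 : E n) (3 / 2) ⊆ W := by
    rintro j _ ⟨z, hz, rfl⟩
    refine hAW j z ?_
    rw [mem_ball_zero_iff] at hz
    rw [mem_closedBall_zero_iff]
    linarith
  have hmW : ∀ x ∈ C, ∀ w : E n, ‖w - F x‖ ≤ 2 * e → w ∈ F '' W := by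
    intro x hxC w hw
    obtain ⟨j, hj⟩ := hCj x hxC
    exact image_mono (hball j) (hmB j x hj w hw)
  obtain ⟨f', hf'd⟩ : ∃ f' : X → Y, f' = fun x => if x ∈ C then β (F' x) else f x := ⟨_, rfl⟩
  have h'C : ∀ x, x ∉ C → f' x = f x := fun x hx => by rw [hf'd]; exact if_neg hx
  have h'C' : ∀ x, x ∈ C → f' x = β (F' x) := fun x hx => by rw [hf'd]; exact if_pos hx
  -- on `W` the new map is `β ∘ F'`
  have hF'V : ∀ x ∈ W, ∃ y ∈ W, F' x = B (f y) ∧ f' x = f y := by
    intro x hxW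
    by_cases hxC : x ∈ C
    · obtain ⟨y, hy, hyF⟩ := hmW x hxC (F' x) ((hF'e x).trans (by linarith))
      refine ⟨y, hy, ?_, ?_⟩
      · rw [← hyF, hFx]
      · rw [h'C' x hxC, ← hyF, hFx, hβ _ (hWV y hy)]
    · exact ⟨x, hxW, by rw [hF'C x hxC, hFx], h'C x hxC⟩
  have hF'B : ∀ x ∈ W, B (f' x) = F' x := by
    intro x hxW
    obtain ⟨y, hy, h1, h2⟩ := hF'V x hxW
    rw [h2, h1]
  have hF'β : ∀ x ∈ W, f' x = β (F' x) := by
    intro x hxW
    obtain ⟨y, hy, h1, h2⟩ := hF'V x hxW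
    rw [h2, h1, hβ _ (hWV y hy)]
  have hf'V : ∀ x ∈ W, f' x ∈ V := by
    intro x hxW
    obtain ⟨y, hy, h1, h2⟩ := hF'V x hxW
    rw [h2]
    exact hWV y hy
  have hβF : ∀ x ∈ W, LD n β (F' x) := by
    intro x hxW
    rw [← hF'B x hxW]
    exact hβL _ (hf'V x hxW)
  have hevW : ∀ x ∈ W, f' =ᶠ[𝓝 x] fun y => β (F' y) := by
    intro x hxW
    filter_upwards [hW.mem_nhds hxW] with y hy
    exact hF'β y hy
  have hevC : ∀ x, x ∉ C → f' =ᶠ[𝓝 x] f := by
    intro x hxC
    filter_upwards [hC.isClosed.isOpen_compl.mem_nhds hxC] with y hy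
    exact h'C y hy
  have hLW : ∀ x ∈ W, LD n F' x → LD n f' x := fun x hxW h =>
    LD.congr (LD.comp_fun (hβF x hxW) h) (hevW x hxW)
  have hnC : ∀ x, x ∉ W → x ∉ C := fun x hxW hxC => hxW (hCW hxC)
  have hf'c : Continuous f' := by
    rw [continuous_iff_continuousAt]
    intro x
    by_cases hxW : x ∈ W
    · rw [continuousAt_congr (hevW x hxW)]
      exact ContinuousAt.comp (g := β) (hβF x hxW).continuousAt
        (hF'c.continuousAt (hW.mem_nhds hxW))
    · rw [continuousAt_congr (hevC x (hnC x hxW))]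
      exact f.continuous.continuousAt
  -- injectivity
  have hinj1 : ∀ x ∈ C, ∀ y, f' x = f' y → x = y := by
    intro x hxC y hxy
    obtain ⟨j, hj⟩ := hCj x hxC
    have hyW : y ∈ W := by
      by_contra hyW
      obtain ⟨y', hy', -, h2⟩ := hF'V x (hCW hxC)
      rw [h2, h'C y (hnC y hyW)] at hxy
      exact hyW (f.injective hxy ▸ hy')
    have h3 : F' x = F' y := by
      rw [← hF'B x (hCW hxC), ← hF'B y hyW, hxy]
    have h4 : ‖F y - F x‖ ≤ 2 * e := by
      have h5 : F y - F x = -(F' y - F y) + (F' x - F x) := by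
        rw [h3]; abel
      rw [h5]
      refine (norm_add_le _ _).trans ?_
      rw [norm_neg]
      have := hF'e x
      have := hF'e y
      linarith
    obtain ⟨y', hy', hyy⟩ := hmB j x hj (F y) h4
    have h6 : y' = y := hFi (hball j hy') hyW hyy
    rw [h6] at hy'
    refine hF'i j ?_ ?_ h3
    · exact image_mono (closedBall_subset_closedBall (by norm_num)) hj
    · exact image_mono ball_subset_closedBall hy'
  have hinj : Injective f' := by
    intro x y hxy
    by_cases hxC : x ∈ C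
    · exact hinj1 x hxC y hxy
    · by_cases hyC : y ∈ C
      · exact (hinj1 y hyC x hxy.symm).symm
      · rw [h'C x hxC, h'C y hyC] at hxy
        exact f.injective hxy
  -- components
  have hcomp : ∀ x, f x ∈ connectedComponent (f' x) := by
    intro x
    by_cases hxC : x ∈ C
    · have hxW := hCW hxC
      have hmid : ∀ s ∈ Icc (0 : ℝ) 1, F x + s • (F' x - F x) ∈ F '' W := by
        intro s hs
        refine hmW x hxC _ ?_
        rw [add_sub_cancel_left, norm_smul, Real.norm_eq_abs, abs_of_nonneg hs.1]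
        calc s * ‖F' x - F x‖ ≤ 1 * ‖F' x - F x‖ :=
              mul_le_mul_of_nonneg_right hs.2 (norm_nonneg _)
          _ ≤ 2 * e := by
              have := hF'e x
              linarith
      have hpc : IsPreconnected ((fun s : ℝ => β (F x + s • (F' x - F x))) '' Icc 0 1) := by
        refine isPreconnected_Icc.image _ ?_
        intro s hs
        refine ContinuousAt.continuousWithinAt ?_
        refine ContinuousAt.comp (g := β) ?_ (by fun_prop)
        obtain ⟨y, hy, hyF⟩ := hmid s hs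
        change ContinuousAt β (F x + s • (F' x - F x))
        rw [← hyF, hFx]
        exact (hβL _ (hWV y hy)).continuousAt
      refine hpc.subset_connectedComponent ?_ ?_
      · refine ⟨1, ⟨zero_le_one, le_rfl⟩, ?_⟩
        show β (F x + (1 : ℝ) • (F' x - F x)) = f' x
        rw [one_smul, add_sub_cancel, h'C' x hxC]
      · refine ⟨0, ⟨le_rfl, zero_le_one⟩, ?_⟩
        show β (F x + (0 : ℝ) • (F' x - F x)) = f x
        rw [zero_smul, add_zero, hFx, hβ _ (hWV x hxW)]
    · rw [h'C x hxC]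
      exact mem_connectedComponent
  obtain ⟨g, hg⟩ := homeo_of_off n f f' hf'c hinj C hC h'C hcomp
  have hgf : (g : X → Y) = f' := funext hg
  refine ⟨g, ?_, ?_, ?_, ?_, ?_⟩
  · intro x
    rw [hgf]
    by_cases hxW : x ∈ W
    · rcases hF'm x hxW with h1 | h1
      · exact Or.inl (hLW x hxW h1)
      · refine Or.inr ⟨B, hBd _ (hf'V x hxW), CMonE.congr h1 ?_⟩
        filter_upwards [hW.mem_nhds hxW] with y hy
        exact hF'B y hy
    · rcases hx x with h1 | h1
      · exact Or.inl (LD.congr h1 (hevC x (hnC x hxW)))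
      · exact Or.inr (CMon.congr h1 (hevC x (hnC x hxW)))
  · intro x
    rw [hg]
    by_cases hxC : x ∈ C
    · rw [h'C' x hxC]
      exact hm2 x hxC _ ((hF'e x).trans hee2)
    · rw [h'C x hxC]
      exact hfO x
  · intro x h1
    rw [hgf]
    by_cases hxW : x ∈ W
    · apply hLW x hxW
      apply hF'L
      rw [hFd]
      exact LD.comp_fun (hBd _ (hWV x hxW)) h1
    · exact LD.congr h1 (hevC x (hnC x hxW))
  · intro x hxD
    rw [hgf]
    exact hLW x (hDW hxD) (hF'D x hxD)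
  · intro x hxW
    rw [hg]
    exact h'C x (hnC x hxW)

end Pool.Agent.Q130.CM
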